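import Pool.Agent.Lib.MP_4dc748_co.TC.FamB

/-!
# The arc of the lower bound: the number of points
-/

set_option autoImplicit false

open scoped Classical

namespace Pool.Agent.Lib.MP_4dc748_co.TC

open Finset Pool.Agent.Lib.MP_4dc748_co.TA

variable {F : Type} [Field F] [Fintype F] (s : F ≃+* F)

/-- The number of pairs (b0, b1) with T(κ (y b0 + x b1)) = 1. -/
theorem card_pair (τ : Tr F) {h : ℕ} (hq : Fintype.card F = 2 * h) {κ x y : F} (hκ : κ ≠ 0)
    (hxy : (x, y) ≠ (0, 0)) :
    (univ.filter (fun p : F × F => τ.T (κ * (y * p.1 + x * p.2)) = 1)).card =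
      Fintype.card F * h := by
  have key : ∀ (u w : F), u ≠ 0 →
      ∑ c : F, (univ.filter (fun d : F => τ.T (κ * (w * c + u * d)) = 1)).card =
        Fintype.card F * h := by
    intro u w hu
    rw [Finset.sum_congr rfl (g := fun _ => h), Finset.sum_const, Finset.card_univ, smul_eq_mul]
    intro c _
    rw [← τ.half hq (mul_ne_zero hκ hu) (1 - τ.T (κ * (w * c)))]
    congr 1
    ext d
    simp only [mem_filter, mem_univ, true_and]
    have : κ * (w * c + u * d) = κ * (w * c) + κ * u * d := by ring
    rw [this, map_add, eq_sub_iff_add_eq, add_comm]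
  by_cases hx : x = 0
  · have hy : y ≠ 0 := fun hy => hxy (by rw [hx, hy])
    rw [Finset.card_filter, Fintype.sum_prod_type_right, ← key y x hy]
    refine Finset.sum_congr rfl fun c _ => ?_
    rw [Finset.card_filter]
    refine Finset.sum_congr rfl fun d _ => ?_
    rw [add_comm (y * d)]
  · rw [Finset.card_filter, Fintype.sum_prod_type, ← key x y hx]
    refine Finset.sum_congr rfl fun c _ => ?_
    rw [Finset.card_filter]

theorem card_offS (τ : Tr F) {h : ℕ} (hq : Fintype.card F = 2 * h) :
    (offS s τ).card = (Fintype.card F ^ 2 - 1) * (Fintype.card F * h) := by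
  unfold offS
  rw [Finset.card_filter, Fintype.sum_prod_type]
  have h1 : ∀ v : F × F, ∑ p : F × F, (if (v, p).1 ≠ (0, 0) ∧
      τ.T ((wt s (v, p).1.1 (v, p).1.2)⁻¹ * ((v, p).1.2 * (v, p).2.1 + (v, p).1.1 * (v, p).2.2)) = 1
      then 1 else 0) = if v ≠ (0, 0) then Fintype.card F * h else 0 := by
    rintro ⟨x, y⟩
    by_cases hv : ((x, y) : F × F) = (0, 0)
    · rw [if_neg (not_not.2 hv)]
      exact Finset.sum_eq_zero fun p _ => if_neg fun h => h.1 hv
    · rw [if_pos hv, ← card_pair τ hq (inv_ne_zero (wt_ne s hv)) hv, Finset.card_filter]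
      refine Finset.sum_congr rfl fun p _ => ?_
      simp only
      by_cases h2 : τ.T ((wt s x y)⁻¹ * (y * p.1 + x * p.2)) = 1
      · rw [if_pos ⟨hv, h2⟩, if_pos h2]
      · rw [if_neg (fun h => h2 h.2), if_neg h2]
  rw [Finset.sum_congr rfl fun v _ => h1 v, ← Finset.sum_filter, Finset.sum_const, smul_eq_mul]
  congr 1
  rw [Finset.filter_ne', Finset.card_erase_of_mem (mem_univ _), Finset.card_univ,
    Fintype.card_prod, sq]

theorem card_onS {Z : Option F → Finset F} {N : ℕ} (hZ : ∀ M, (Z M).card = N) :
    (onS Z).card = (Fintype.card F + 1) * (Fintype.card F * N) := by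
  unfold onS
  rw [Finset.card_filter, Fintype.sum_prod_type]
  have h1 : ∀ M : Option F, ∑ p : F × F, (if (M, p).2.2 ∈ Z (M, p).1 then 1 else 0) =
      Fintype.card F * N := by
    intro M
    rw [Fintype.sum_prod_type, Finset.sum_congr rfl (g := fun _ => N), Finset.sum_const,
      Finset.card_univ, smul_eq_mul]
    intro f _
    rw [← hZ M, ← Finset.card_filter]
    congr 1
    ext z
    simp
  rw [Finset.sum_congr rfl fun M _ => h1 M, Finset.sum_const, Finset.card_univ,
    Fintype.card_option, smul_eq_mul]

/-- Existence of the arc in coordinates. -/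
theorem exists_family [CharP F 2] {h N : ℕ} (hq : Fintype.card F = 2 * h) (hN : N + 1 ≤ h) :
    ∃ (ι : Type) (_ : Fintype ι) (v b : ι → Fin 3 → F), (∀ i, v i ≠ 0) ∧
      (∀ i j, i ≠ j → ∀ c d : F, ¬ (v j = c • v i ∧ b j = d • v i + s c • b i)) ∧
      (∀ a c : Fin 3 → F, a ≠ 0 →
        (univ.filter (fun i => Inc s a c (v i) (b i))).card ≤ Fintype.card F * h + N) ∧
      Fintype.card ι = (Fintype.card F ^ 2 - 1) * (Fintype.card F * h) +
        (Fintype.card F + 1) * (Fintype.card F * N) := by
  obtain ⟨τ⟩ := exists_Tr F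
  obtain ⟨δ, hδ⟩ := τ.one
  have hZ0 : ∀ M : Option F, ∃ Z : Finset F, Z ⊆ univ.filter (fun z => InZ τ δ (M.map s) z) ∧
      Z.card = N := by
    intro M
    have h1 := card_InZ τ hq hδ (M.map s)
    exact Finset.exists_subset_card_eq (by omega)
  choose Z hZ1 hZ2 using hZ0
  have hZ : ∀ M, ∀ z ∈ Z M, InZ τ δ (M.map s) z := fun M z hz => (mem_filter.1 (hZ1 M hz)).2
  refine ⟨{p // p ∈ offS s τ} ⊕ {p // p ∈ onS Z}, inferInstance,
    Sum.elim (fun p => offv p.1) (fun p => onv p.1),
    Sum.elim (fun p => offb p.1) (fun p => onb p.1), ?_, ?_, ?_, ?_⟩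
  · rintro (⟨⟨⟨x, y⟩, ⟨b0, b1⟩⟩, hp⟩ | ⟨⟨M, ⟨f, z⟩⟩, hp⟩) h0
    · have := congrFun h0 2
      simp [offv] at this
    · rcases M with _ | m
      · have := congrFun h0 1
        simp [onv] at this
      · have := congrFun h0 0
        simp [onv] at this
  · rintro (⟨⟨⟨x, y⟩, ⟨b0, b1⟩⟩, hp⟩ | ⟨⟨M, ⟨f, z⟩⟩, hp⟩)
      (⟨⟨⟨x', y'⟩, ⟨b0', b1'⟩⟩, hp'⟩ | ⟨⟨M', ⟨f', z'⟩⟩, hp'⟩) hne c d ⟨e1, e2⟩
    · have a0 := congrFun e1 0
      have a1 := congrFun e1 1
      have a2 := congrFun e1 2
      have b0 := congrFun e2 0
      have b1 := congrFun e2 1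
      have b2 := congrFun e2 2
      simp [offv, offb] at a0 a1 a2 b0 b1 b2
      subst a2
      simp at a0 a1 b0 b1 b2
      subst b2
      simp at b0 b1
      apply hne
      subst a0 a1 b0 b1
      rfl
    · rcases M' with _ | m'
      · have a2 := congrFun e1 2
        have a1 := congrFun e1 1
        simp [offv, onv] at a2 a1
        rw [← a2, zero_mul] at a1
        exact one_ne_zero a1
      · have a2 := congrFun e1 2
        have a0 := congrFun e1 0
        simp [offv, onv] at a2 a0
        rw [← a2, zero_mul] at a0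
        exact one_ne_zero a0
    · rcases M with _ | m <;>
      · have a2 := congrFun e1 2
        simp [offv, onv] at a2
    · rcases M with _ | m <;> rcases M' with _ | m'
      · have a1 := congrFun e1 1
        have b0 := congrFun e2 0
        have b1 := congrFun e2 1
        have b2 := congrFun e2 2
        simp [onv, onb] at a1 b0 b1 b2
        subst a1
        subst b1
        simp at b0 b2
        apply hne
        subst b0 b2
        rfl
      · have a0 := congrFun e1 0
        simp [onv] at a0
      · have a0 := congrFun e1 0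
        have a1 := congrFun e1 1
        simp [onv] at a0 a1
        rw [← a0, zero_mul] at a1
        exact one_ne_zero a1
      · have a0 := congrFun e1 0
        have a1 := congrFun e1 1
        have b0 := congrFun e2 0
        have b1 := congrFun e2 1
        have b2 := congrFun e2 2
        simp [onv, onb] at a0 a1 b0 b1 b2
        subst a0
        subst b0
        simp at a1 b1 b2
        apply hne
        subst a1 b1 b2
        rfl
  · intro a c ha
    have hsplit : (univ.filter (fun i : {p // p ∈ offS s τ} ⊕ {p // p ∈ onS Z} =>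
        Inc s a c (Sum.elim (fun p => offv p.1) (fun p => onv p.1) i)
          (Sum.elim (fun p => offb p.1) (fun p => onb p.1) i))).card =
        ((offS s τ).filter (fun p => Inc s a c (offv p) (offb p))).card +
        ((onS Z).filter (fun p => Inc s a c (onv p) (onb p))).card := by
      rw [Finset.card_filter, Fintype.sum_sum_type]
      simp only [Sum.elim_inl, Sum.elim_inr]
      rw [Finset.card_filter, Finset.card_filter]
      congr 1
      · exact Finset.sum_coe_sort (offS s τ) (fun p => if Inc s a c (offv p) (offb p) then 1 else 0)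
      · exact Finset.sum_coe_sort (onS Z) (fun p => if Inc s a c (onv p) (onb p) then 1 else 0)
    rw [hsplit]
    by_cases h01 : a 0 = 0 ∧ a 1 = 0
    · have h2 : a 2 ≠ 0 := by
        intro h2
        apply ha
        funext i
        fin_cases i
        · exact h01.1
        · exact h01.2
        · exact h2
      rw [off_C s τ a c h2 h01.1 h01.2, zero_add]
      have h3 := on_le_C s τ hq hδ hZ a c h2 h01.1 h01.2
      rw [mul_comm] at h3
      exact h3.trans (Nat.le_add_right _ _)
    · have h3 := on_le_A s (Z := Z) (N := N) (fun M => (hZ2 M).le) a c h01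
      refine Nat.add_le_add ?_ h3
      by_cases h2 : a 2 = 0
      · have h4 := off_le_B s τ hq a c h2 h01
        rwa [mul_comm] at h4
      · exact off_le_A s τ hq a c h2
  · rw [Fintype.card_sum, Fintype.card_coe, Fintype.card_coe, card_offS s τ hq,
      card_onS (fun M => hZ2 M)]

end Pool.Agent.Lib.MP_4dc748_co.TC
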