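import Pool.Agent.Lib.MP_4dc748_co.TC.Res

/-!
# The upper bound
-/

set_option autoImplicit false

open scoped Classical

namespace Pool.Agent.Lib.MP_4dc748_co.TC

open Finset Pool.Agent.Lib.MP_4dc748_co.TA

variable {F : Type} [Field F] [Fintype F] {s : F ≃+* F} {ι : Type} [Fintype ι]

/-- There is a class with more than U points if there are more than (q^2 + q + 1) U points. -/
theorem exists_class (v : ι → Fin 3 → F) (hv : ∀ i, v i ≠ 0) {U : ℕ}
    (hU : (Fintype.card F ^ 2 + Fintype.card F + 1) * U < Fintype.card ι) :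
    ∃ i0, U < (univ.filter (fun i => ∃ l : F, v i = l • v i0)).card := by
  have hfin : Finite (Projectivization F (Fin 3 → F)) := inferInstance
  have hft : Fintype (Projectivization F (Fin 3 → F)) := Fintype.ofFinite _
  have hcard : Fintype.card (Projectivization F (Fin 3 → F)) =
      Fintype.card F ^ 2 + Fintype.card F + 1 := by
    rw [← Nat.card_eq_fintype_card, Projectivization.card_of_finrank F (Fin 3 → F) (n := 3)
      (by simp), Finset.sum_range_succ, Finset.sum_range_succ, Finset.sum_range_one,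
      Nat.card_eq_fintype_card]
    ring
  let m : ι → Projectivization F (Fin 3 → F) := fun i => Projectivization.mk F (v i) (hv i)
  obtain ⟨P, -, hP⟩ := Finset.exists_lt_card_fiber_of_mul_lt_card_of_maps_to
    (s := (univ : Finset ι)) (t := (univ : Finset (Projectivization F (Fin 3 → F)))) (f := m)
    (n := U) (fun _ _ => mem_univ _) (by rw [Finset.card_univ, Finset.card_univ, hcard]; exact hU)
  obtain ⟨i0, hi0⟩ := Finset.card_pos.1 (lt_of_le_of_lt (Nat.zero_le _) hP)
  refine ⟨i0, lt_of_lt_of_le hP (Finset.card_le_card ?_)⟩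
  intro i hi
  rw [mem_filter] at hi hi0 ⊢
  refine ⟨mem_univ _, ?_⟩
  have h1 : m i = m i0 := hi.2.trans hi0.2.symm
  obtain ⟨a, ha⟩ := (Projectivization.mk_eq_mk_iff' F _ _ (hv i) (hv i0)).1 h1
  exact ⟨a, ha.symm⟩

theorem upper {n h j : ℕ} (hq : Fintype.card F = 2 * h) (hh : 2 ≤ h) (hj : 1 ≤ j)
    (hj2 : j ^ 2 ≤ h) (hn : n + j = h * (Fintype.card F + 1)) (v b : ι → Fin 3 → F)
    (hv : ∀ i, v i ≠ 0)
    (hd : ∀ i j, i ≠ j → ∀ c d : F, ¬ (v j = c • v i ∧ b j = d • v i + s c • b i))
    (hl : ∀ a c : Fin 3 → F, a ≠ 0 →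
      (univ.filter (fun i => Inc s a c (v i) (b i))).card ≤ n) :
    Fintype.card ι ≤ Fintype.card F * (Fintype.card F + 1) * (Fintype.card F * h - j) := by
  by_contra hcon
  push Not at hcon
  set q := Fintype.card F with hqdef
  set k := Fintype.card ι with hkdef
  have hjh : j ≤ h := by nlinarith
  have hjq : j + 1 ≤ q * h := by nlinarith
  obtain ⟨w, hw⟩ : ∃ w, q * h = j + 1 + w := ⟨q * h - (j + 1), by omega⟩
  have hw1 : q * h - j = w + 1 := by omega
  rw [hw1] at hcon
  have hwq : w ≤ q * q := by nlinarith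
  obtain ⟨i0, hi0⟩ := exists_class v hv (U := w) (by
    refine lt_of_le_of_lt ?_ hcon
    have h1 : (q ^ 2 + q + 1) * w = q * (q + 1) * w + w := by ring
    have h2 : q * (q + 1) * (w + 1) = q * (q + 1) * w + q * (q + 1) := by ring
    rw [h1, h2]
    nlinarith)
  set u := (univ.filter (fun i => ∃ l : F, v i = l • v i0)).card with hu
  obtain ⟨σ, h1, h2, h3⟩ := residual v b hv hd hl i0 u hu.symm
  rw [← hqdef, ← hkdef] at h1
  rw [← hqdef] at h2
  have h4 : (k : ℤ) ≤ (q + 1) * (q * n) + u - q * σ := by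
    have : ((q * σ + k : ℕ) : ℤ) ≤ (((q + 1) * (q * n) + u : ℕ) : ℤ) := by exact_mod_cast h1
    push_cast at this
    linarith
  have hkz : ((q : ℤ) * (q + 1) * (w + 1)) < k := by exact_mod_cast hcon
  have hnz : (n : ℤ) = h * (q + 1) - j := by
    have : ((n + j : ℕ) : ℤ) = ((h * (q + 1) : ℕ) : ℤ) := by rw [hn]
    push_cast at this
    linarith
  have hqz : (q : ℤ) = 2 * h := by exact_mod_cast hq
  have hwz : (q : ℤ) * h = j + 1 + w := by exact_mod_cast hw
  have hh0 : (2 : ℤ) ≤ h := by exact_mod_cast hh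
  have hw2 : (w : ℤ) + 1 = q * h - j := by linarith
  rw [hw2] at hkz
  rw [hnz] at h4
  by_cases hcase : q * h ≤ u
  · have h5 : (q : ℤ) * h ≤ u := by exact_mod_cast hcase
    have h6 : (u : ℤ) + q ≤ σ := by exact_mod_cast h2
    have h7 : (q : ℤ) * (u + q) ≤ q * σ := mul_le_mul_of_nonneg_left h6 (by linarith)
    have h8 : ((q : ℤ) - 1) * (q * h) ≤ (q - 1) * u := mul_le_mul_of_nonneg_left h5 (by linarith)
    have h9 : (q : ℤ) * (q + 1) * (q * h - j) < (q + 1) * (q * (h * (q + 1) - j)) - (q - 1) * (q * h) - q * q := by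
      nlinarith
    rw [hqz] at h9
    nlinarith
  · push Not at hcase
    obtain ⟨e, he⟩ : ∃ e, u + e = q * h := ⟨q * h - u, by omega⟩
    have he1 : 1 ≤ e := by omega
    have hej : e ≤ j := by omega
    have he2 : e ^ 2 ≤ h := (Nat.pow_le_pow_left hej 2).trans hj2
    have h5 := h3 h e hq hh he1 he2 (by rw [← hqdef]; exact he)
    rw [← hqdef] at h5
    have h6 : (q : ℤ) * h + q ≤ σ := by exact_mod_cast h5
    have h7 : (q : ℤ) * (q * h + q) ≤ q * σ := mul_le_mul_of_nonneg_left h6 (by linarith)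
    have h8 : (u : ℤ) + e = q * h := by exact_mod_cast he
    have he1z : (1 : ℤ) ≤ e := by exact_mod_cast he1
    have h9 : (q : ℤ) * (q + 1) * (q * h - j) < (q + 1) * (q * (h * (q + 1) - j)) + (q * h - e) - q * (q * h + q) := by
      linarith
    rw [hqz] at h9
    nlinarith

end Pool.Agent.Lib.MP_4dc748_co.TC
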