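import Pool.Agent.Lib.MP_4dc748_co.TA.Plane
import Pool.Agent.Lib.MP_4dc748_co.TA.Chain
import Pool.Agent.Lib.MP_4dc748_co.TC.Upper
import Pool.Agent.Lib.MP_4dc748_co.TC.Lower

/-!
# From coordinates to the ring, for every n
-/

set_option autoImplicit false

open scoped Classical

namespace Pool.Agent.Lib.MP_4dc748_co.TC

open Pool.Agent.Lib.MP_4dc748_co.TA

variable {R F : Type} [Ring R] [Field F] {s : F ≃+* F}

/-- The upper bound: families of pairs (v, b) give the bound for arcs. -/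
theorem coord_upper [Finite R] (C : Coord R F s) {N n : ℕ}
    (hU : ∀ (ι : Type) [Fintype ι] (v b : ι → Fin 3 → F), (∀ i, v i ≠ 0) →
      (∀ i j, i ≠ j → ∀ c d : F, ¬ (v j = c • v i ∧ b j = d • v i + s c • b i)) →
      (∀ a c : Fin 3 → F, a ≠ 0 →
        (Finset.univ.filter (fun i => Inc s a c (v i) (b i))).card ≤ n) →
      Fintype.card ι ≤ N)
    {K : Set (Submodule Rᵐᵒᵖ (Fin 3 → R))} (hK : IsArc R n K) : K.ncard ≤ N := by
  have hfin : Finite (Submodule Rᵐᵒᵖ (Fin 3 → R)) := plane_finite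
  have hfK : Fintype K := Fintype.ofFinite K
  choose x hx1 hx2 using fun P : K => C.exists_of_isPoint (hK.1 P.1 P.2)
  have hcard : K.ncard = Fintype.card K := by
    rw [← Nat.card_eq_fintype_card, Nat.card_coe_set_eq]
  rw [hcard]
  refine hU K (fun P => C.v1 (x P)) (fun P => C.v2 (x P)) hx1 ?_ ?_
  · rintro P P' hne c d ⟨h1, h2⟩
    have h3 := C.span_eq (hx1 P) (hx1 P') h1 h2
    rw [← hx2, ← hx2] at h3
    exact hne (Subtype.ext h3.symm)
  · intro a c ha
    refine le_trans ?_ (hK.2 (C.ker a c) (C.isLine_ker c ha))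
    have h1 : ((Finset.univ.filter (fun P : K => Inc s a c (C.v1 (x P)) (C.v2 (x P)))).map
        ⟨Subtype.val, Subtype.val_injective⟩ : Set (Submodule Rᵐᵒᵖ (Fin 3 → R))) ⊆
        {P | P ∈ K ∧ P ≤ C.ker a c} := by
      intro P hP
      rw [Finset.mem_coe, Finset.mem_map] at hP
      obtain ⟨P', hP', rfl⟩ := hP
      refine ⟨P'.2, ?_⟩
      have h2 := (C.span_le_ker a c (x P')).2 (Finset.mem_filter.1 hP').2
      rw [← hx2] at h2
      exact h2
    have h3 := Set.ncard_le_ncard h1 (Set.toFinite _)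
    rwa [Set.ncard_coe_finset, Finset.card_map] at h3

/-- A family of pairs (v, b) gives an arc. -/
theorem coord_lower [Finite R] (C : Coord R F s) {n : ℕ} {ι : Type} [Fintype ι]
    {v b : ι → Fin 3 → F}
    (hv : ∀ i, v i ≠ 0)
    (hd : ∀ i j, i ≠ j → ∀ c d : F, ¬ (v j = c • v i ∧ b j = d • v i + s c • b i))
    (hl : ∀ a c : Fin 3 → F, a ≠ 0 →
      (Finset.univ.filter (fun i => Inc s a c (v i) (b i))).card ≤ n) :
    ∃ K, IsArc R n K ∧ K.ncard = Fintype.card ι := by
  have hfin : Finite (Submodule Rᵐᵒᵖ (Fin 3 → R)) := plane_finite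
  have h1 : ∀ i, C.v1 (C.vec (v i) (b i)) = v i := fun i => by
    ext j
    simp [Coord.v1, Coord.vec]
  have h2 : ∀ i, C.v2 (C.vec (v i) (b i)) = b i := fun i => by
    ext j
    simp [Coord.v2, Coord.vec]
  let f : ι → Submodule Rᵐᵒᵖ (Fin 3 → R) := fun i => Submodule.span Rᵐᵒᵖ {C.vec (v i) (b i)}
  have hf : Function.Injective f := by
    intro i j hij
    by_contra hne
    have h3 : C.vec (v j) (b j) ∈ Submodule.span Rᵐᵒᵖ {C.vec (v i) (b i)} := by
      change C.vec (v j) (b j) ∈ f i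
      rw [hij]
      exact Submodule.mem_span_singleton_self _
    obtain ⟨r, hr⟩ := Submodule.mem_span_singleton.mp h3
    have e1 := planeA_v1_smul C (C.vec (v i) (b i)) r
    have e2 := planeA_v2_smul C (C.vec (v i) (b i)) r
    rw [hr, h1, h1] at e1
    rw [hr, h2, h1, h2] at e2
    exact hd i j hne _ _ ⟨e1, e2⟩
  refine ⟨Set.range f, ⟨?_, ?_⟩, ?_⟩
  · rintro P ⟨i, rfl⟩
    exact C.isPoint_span (by rw [h1]; exact hv i)
  · intro L hL
    obtain ⟨a, c, ha, hLk⟩ := C.exists_ker hL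
    refine le_trans ?_ (hl a c ha)
    have h3 : {P | P ∈ Set.range f ∧ P ≤ L} ⊆
        (((Finset.univ.filter (fun i => Inc s a c (v i) (b i))).image f : Finset _) :
          Set (Submodule Rᵐᵒᵖ (Fin 3 → R))) := by
      rintro P ⟨⟨i, rfl⟩, hi⟩
      rw [Finset.mem_coe, Finset.mem_image]
      refine ⟨i, Finset.mem_filter.2 ⟨Finset.mem_univ _, ?_⟩, rfl⟩
      have h4 := (C.span_le_ker a c (C.vec (v i) (b i))).1 (hi.trans hLk)
      rwa [h1, h2] at h4
    refine (Set.ncard_le_ncard h3 (Set.toFinite _)).trans ?_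
    rw [Set.ncard_coe_finset]
    exact Finset.card_image_le
  · rw [← Set.image_univ, Set.ncard_image_of_injective _ hf, Set.ncard_univ,
      Nat.card_eq_fintype_card]

/-- The main theorem. -/
theorem arcMax_window (R : Type) [Ring R] [Finite R] (F : Type) [Field F] [Finite F]
    (e : (R ⧸ Ring.jacobson R) ≃+* F) (hchar : CharP R 2)
    (hcard : Nat.card R = Nat.card F ^ 2) (hq4 : 4 ≤ Nat.card F) (j : ℕ) (hj : 1 ≤ j) :
    (2 * j < Nat.card F → Nat.card F * (Nat.card F + 1) * (Nat.card F ^ 2 / 2 - j) ≤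
      arcMax R (Nat.card F * (Nat.card F + 1) / 2 - j)) ∧
    (2 * j ^ 2 ≤ Nat.card F → arcMax R (Nat.card F * (Nat.card F + 1) / 2 - j) =
      Nat.card F * (Nat.card F + 1) * (Nat.card F ^ 2 / 2 - j)) := by
  classical
  have := charP_of_quot e hchar
  have : Fintype F := Fintype.ofFinite F
  obtain ⟨s, ⟨C⟩⟩ := exists_coord e hchar hcard
  have hfin : Finite (Submodule Rᵐᵒᵖ (Fin 3 → R)) := plane_finite
  rw [Nat.card_eq_fintype_card] at hq4 ⊢
  obtain ⟨h, hh⟩ : ∃ h, Fintype.card F = 2 * h := by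
    obtain ⟨n, _, hn⟩ := FiniteField.card F 2
    refine ⟨2 ^ ((n : ℕ) - 1), ?_⟩
    rw [hn, ← pow_succ']
    congr 1
    have := n.pos
    omega
  set q := Fintype.card F with hq
  have e1 : q ^ 2 / 2 = q * h := by
    have : q ^ 2 = q * h * 2 := by
      rw [sq]
      conv_lhs => rw [hh]
      rw [hh]
      ring
    rw [this, Nat.mul_div_cancel _ (by norm_num)]
  have e2 : q * (q + 1) / 2 = h * (q + 1) := by
    have : q * (q + 1) = h * (q + 1) * 2 := by
      conv_lhs => rw [hh]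
      rw [hh]
      ring
    rw [this, Nat.mul_div_cancel _ (by norm_num)]
  rw [e1, e2]
  have hh2 : 2 ≤ h := by omega
  have hbdd : ∀ n, BddAbove {k : ℕ | ∃ K, IsArc R n K ∧ K.ncard = k} := by
    intro n
    refine ⟨Nat.card (Submodule Rᵐᵒᵖ (Fin 3 → R)), ?_⟩
    rintro k ⟨K, -, rfl⟩
    rw [← Set.ncard_univ]
    exact Set.ncard_le_ncard (Set.subset_univ _) (Set.toFinite _)
  have hlow : 2 * j < q → q * (q + 1) * (q * h - j) ≤ arcMax R (h * (q + 1) - j) := by
    intro hjq
    obtain ⟨N, hN⟩ : ∃ N, h = N + j := ⟨h - j, by omega⟩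
    obtain ⟨ι, hι, v, b, hv, hd, hl, hc⟩ := exists_family s (h := h) (N := N) hh (by omega)
    obtain ⟨K, hK, hKc⟩ := coord_lower C (n := q * h + N) hv hd (by convert hl)
    have h1 : h * (q + 1) - j = q * h + N := by
      have : h * (q + 1) = q * h + h := by ring
      omega
    have h2 : q * (q + 1) * (q * h - j) = K.ncard := by
      rw [hKc, hc]
      obtain ⟨w, hw⟩ : ∃ w, q * h = w + j := ⟨q * h - j, by
        have : j ≤ q * h := by nlinarith
        omega⟩
      have hw1 : q * h - j = w := by omega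
      obtain ⟨p, hp⟩ : ∃ p, q = p + 1 := ⟨q - 1, by omega⟩
      have hp2 : q ^ 2 - 1 = p * (p + 2) := by
        rw [hp]
        have : (p + 1) ^ 2 = p * (p + 2) + 1 := by ring
        omega
      rw [← hq, hw1, hp2]
      have hwz : (w : ℤ) = q * h - j := by
        have : ((q * h : ℕ) : ℤ) = ((w + j : ℕ) : ℤ) := by rw [hw]
        push_cast at this
        linarith
      have hNz : (N : ℤ) = h - j := by
        have : (h : ℤ) = ((N + j : ℕ) : ℤ) := by exact_mod_cast hN
        push_cast at this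
        linarith
      have hpz : (p : ℤ) = q - 1 := by
        have : (q : ℤ) = ((p + 1 : ℕ) : ℤ) := by exact_mod_cast hp
        push_cast at this
        linarith
      have : ((q * (q + 1) * w : ℕ) : ℤ) = ((p * (p + 2) * (q * h) + (q + 1) * (q * N) : ℕ) : ℤ) := by
        push_cast
        rw [hwz, hNz, hpz]
        ring
      exact_mod_cast this
    rw [h2, h1]
    exact le_csSup (hbdd _) ⟨K, hK, rfl⟩
  refine ⟨hlow, fun hj2 => ?_⟩
  have hj2' : j ^ 2 ≤ h := by omega
  refine le_antisymm ?_ (hlow ?_)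
  · refine csSup_le ⟨_, ∅, ⟨by simp, by simp⟩, rfl⟩ ?_
    rintro k ⟨K, hK, rfl⟩
    refine coord_upper C (fun ι _ v b hv hd hl => ?_) hK
    refine upper (s := s) hh hh2 hj hj2' (n := h * (q + 1) - j) ?_ v b hv hd (by convert hl)
    have h3 : j ≤ h * (q + 1) := by nlinarith
    change h * (q + 1) - j + j = h * (q + 1)
    omega
  · rcases Nat.lt_or_ge 1 j with h1 | h1
    · nlinarith
    · have : j = 1 := by omega
      omega

end Pool.Agent.Lib.MP_4dc748_co.TC
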