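import Mathlib

/-!
# A lemma on sets of points of an affine plane of even order

K is a set of q h - e points, q = 2 h, e >= 1, e^2 <= h; s d is an upper bound for the number of points of K on the lines of
the direction d. Then the sum of the s d is at least q h + q.
-/

set_option autoImplicit false

namespace Pool.Agent.Lib.MP_4dc748_co.TC

open Finset

/-- An affine plane of order q, given by its parallel classes: p d x is the line of the class d through the
point x. -/
structure AP (X D T : Type) [Fintype X] [Fintype D] [Fintype T] [DecidableEq X] [DecidableEq D]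
    [DecidableEq T] (q : ℕ) where
  p : D → X → T
  cT : Fintype.card T = q
  cD : Fintype.card D = q + 1
  fib : ∀ d t, (univ.filter (fun x => p d x = t)).card = q
  one : ∀ x y, x ≠ y → (univ.filter (fun d => p d x = p d y)).card = 1
  meet : ∀ d e, d ≠ e → ∀ t u, (univ.filter (fun x => p d x = t ∧ p e x = u)).card = 1

variable {X D T : Type} [Fintype X] [Fintype D] [Fintype T] [DecidableEq X] [DecidableEq D]
  [DecidableEq T] {q : ℕ}

/-- The number of points of K on the line (d, t). -/
def AP.S (A : AP X D T q) (K : Finset X) (d : D) (t : T) : ℤ :=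
  ((K.filter (fun x => A.p d x = t)).card : ℤ)

theorem AP.S_nonneg (A : AP X D T q) (K : Finset X) (d : D) (t : T) : 0 ≤ A.S K d t := by
  unfold AP.S
  positivity

theorem AP.sum_fiber (A : AP X D T q) (K : Finset X) (d : D) (f : T → ℤ) :
    ∑ x ∈ K, f (A.p d x) = ∑ t, A.S K d t * f t := by
  rw [← Finset.sum_fiberwise_of_maps_to (s := K) (t := univ) (g := fun x => A.p d x)
    (fun x _ => mem_univ _)]
  refine Finset.sum_congr rfl fun t _ => ?_
  rw [Finset.sum_congr rfl (g := fun _ => f t), Finset.sum_const, nsmul_eq_mul]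
  · rfl
  · intro x hx
    rw [(Finset.mem_filter.1 hx).2]

theorem AP.sumT (A : AP X D T q) (K : Finset X) (d : D) : ∑ t, A.S K d t = (K.card : ℤ) := by
  have h := A.sum_fiber K d (fun _ => 1)
  simp only [Finset.sum_const, nsmul_eq_mul, mul_one] at h
  exact h.symm

theorem AP.sumD (A : AP X D T q) (K : Finset X) (x : X) :
    ∑ d, A.S K d (A.p d x) = (K.card : ℤ) + if x ∈ K then (q : ℤ) else 0 := by
  have h1 : ∀ d, A.S K d (A.p d x) = ∑ y ∈ K, (if A.p d y = A.p d x then (1 : ℤ) else 0) := by
    intro d
    rw [Finset.sum_boole]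
    rfl
  simp only [h1]
  rw [Finset.sum_comm]
  have h2 : ∀ y, ∑ d, (if A.p d y = A.p d x then (1 : ℤ) else 0) = 1 + if y = x then (q : ℤ) else 0 := by
    intro y
    rw [Finset.sum_boole]
    by_cases hy : y = x
    · subst hy
      have : (univ.filter (fun d : D => A.p d y = A.p d y)) = univ := by
        ext; simp
      rw [this, Finset.card_univ, A.cD, if_pos rfl]
      push_cast
      ring
    · rw [A.one y x hy, if_neg hy]
      simp
  simp only [h2]
  rw [Finset.sum_add_distrib, Finset.sum_const, nsmul_eq_mul, mul_one, Finset.sum_ite_eq']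

theorem AP.cardX (A : AP X D T q) : Fintype.card X = q * q := by
  obtain ⟨d⟩ : Nonempty D := by
    rw [← Fintype.card_pos_iff, A.cD]
    omega
  rw [← Finset.card_univ, Finset.card_eq_sum_card_fiberwise (f := fun x => A.p d x) (t := univ)
    (fun x _ => mem_coe.2 (mem_univ _)), Finset.sum_congr rfl (fun t _ => A.fib d t),
    Finset.sum_const, Finset.card_univ, A.cT, smul_eq_mul]

/-- The trivial bound. -/
theorem AP.triv (A : AP X D T q) {K : Finset X} (hK : K.Nonempty) (s : D → ℕ)
    (hs : ∀ d t, (K.filter (fun x => A.p d x = t)).card ≤ s d) :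
    K.card + q ≤ ∑ d, s d := by
  obtain ⟨x, hx⟩ := hK
  have h1 := A.sumD K x
  rw [if_pos hx] at h1
  have h2 : ∑ d, A.S K d (A.p d x) ≤ ∑ d, (s d : ℤ) :=
    Finset.sum_le_sum fun d _ => by
      unfold AP.S
      exact_mod_cast hs d _
  rw [h1] at h2
  exact_mod_cast h2

/-- The number of points on two lines out of two sets of lines. -/
theorem AP.pairs (A : AP X D T q) {d e : D} (hde : d ≠ e) (U V : Finset T) :
    ∑ x, (if A.p d x ∈ U then (1 : ℤ) else 0) * (if A.p e x ∈ V then (1 : ℤ) else 0) =
      (U.card : ℤ) * V.card := by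
  have h1 : ∀ x, (if A.p d x ∈ U then (1 : ℤ) else 0) * (if A.p e x ∈ V then (1 : ℤ) else 0) =
      ∑ t ∈ U, ∑ u ∈ V, (if A.p d x = t ∧ A.p e x = u then (1 : ℤ) else 0) := by
    intro x
    have h2 : ∀ t u, (if A.p d x = t ∧ A.p e x = u then (1 : ℤ) else 0) =
        (if A.p d x = t then 1 else 0) * (if A.p e x = u then 1 else 0) := by
      intro t u
      by_cases h3 : A.p d x = t <;> by_cases h4 : A.p e x = u <;> simp [h3, h4]
    simp only [h2, ← Finset.mul_sum, ← Finset.sum_mul, Finset.sum_ite_eq]
  simp only [h1]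
  rw [Finset.sum_comm]
  rw [Finset.sum_congr rfl (g := fun _ => (V.card : ℤ)), Finset.sum_const, nsmul_eq_mul]
  intro t _
  rw [Finset.sum_comm, Finset.sum_congr rfl (g := fun _ => (1 : ℤ))]
  · simp
  · intro u _
    rw [Finset.sum_boole, A.meet d e hde t u]
    simp

theorem AP.single (A : AP X D T q) (d : D) (U : Finset T) :
    ∑ x, (if A.p d x ∈ U then (1 : ℤ) else 0) = (q : ℤ) * U.card := by
  have h1 : ∀ x, (if A.p d x ∈ U then (1 : ℤ) else 0) =
      ∑ t ∈ U, (if A.p d x = t then (1 : ℤ) else 0) := by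
    intro x
    rw [Finset.sum_ite_eq]
  simp only [h1]
  rw [Finset.sum_comm, Finset.sum_congr rfl (g := fun _ => (q : ℤ)), Finset.sum_const,
    nsmul_eq_mul, mul_comm]
  intro t _
  rw [Finset.sum_boole, A.fib d t]

end Pool.Agent.Lib.MP_4dc748_co.TC
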