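import Pool.Agent.Lib.MP_4dc748_co.TC.AG

/-!
# A lemma on sets of points of an affine plane of even order
-/

set_option autoImplicit false

namespace Pool.Agent.Lib.MP_4dc748_co.TC

open Finset

variable {X D T : Type} [Fintype X] [Fintype D] [Fintype T] [DecidableEq X] [DecidableEq D]
  [DecidableEq T] {q : ℕ}

/-- The first and the second moment of the number of the lines of a set of lines through a point. -/
theorem AP.moments (A : AP X D T q) (U : D → Finset T) :
    ∑ x, (∑ d, if A.p d x ∈ U d then (1 : ℤ) else 0) = (q : ℤ) * ∑ d, ((U d).card : ℤ) ∧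
    ∑ x, (∑ d, if A.p d x ∈ U d then (1 : ℤ) else 0) ^ 2 =
      (q : ℤ) * (∑ d, ((U d).card : ℤ)) + (∑ d, ((U d).card : ℤ)) ^ 2 -
        ∑ d, ((U d).card : ℤ) ^ 2 := by
  constructor
  · rw [Finset.sum_comm, Finset.mul_sum]
    exact Finset.sum_congr rfl fun d _ => A.single d (U d)
  · have h1 : ∀ x, (∑ d, if A.p d x ∈ U d then (1 : ℤ) else 0) ^ 2 =
        ∑ d, ∑ e, (if A.p d x ∈ U d then (1 : ℤ) else 0) * (if A.p e x ∈ U e then (1 : ℤ) else 0) := by
      intro x
      rw [sq, Finset.sum_mul_sum]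
    simp only [h1]
    rw [Finset.sum_comm]
    have h2 : ∀ d, ∑ x, ∑ e, (if A.p d x ∈ U d then (1 : ℤ) else 0) *
        (if A.p e x ∈ U e then (1 : ℤ) else 0) =
        (q : ℤ) * (U d).card + ((U d).card : ℤ) * (∑ e, ((U e).card : ℤ)) - ((U d).card : ℤ) ^ 2 := by
      intro d
      rw [Finset.sum_comm]
      have h3 : ∀ e, ∑ x, (if A.p d x ∈ U d then (1 : ℤ) else 0) *
          (if A.p e x ∈ U e then (1 : ℤ) else 0) = ((U d).card : ℤ) * (U e).card +
          if e = d then (q : ℤ) * (U d).card - ((U d).card : ℤ) ^ 2 else 0 := by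
        intro e
        by_cases he : e = d
        · subst he
          rw [if_pos rfl]
          have h4 : ∀ x, (if A.p e x ∈ U e then (1 : ℤ) else 0) *
              (if A.p e x ∈ U e then (1 : ℤ) else 0) = if A.p e x ∈ U e then (1 : ℤ) else 0 := by
            intro x
            split_ifs <;> simp
          simp only [h4]
          rw [A.single e (U e)]
          ring
        · rw [if_neg he, add_zero]
          exact A.pairs (Ne.symm he) _ _
      simp only [h3]
      rw [Finset.sum_add_distrib, Finset.sum_ite_eq', ← Finset.mul_sum]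
      simp only [Finset.mem_univ, if_true]
      ring
    simp only [h2]
    rw [Finset.sum_sub_distrib, Finset.sum_add_distrib, ← Finset.mul_sum, ← Finset.sum_mul]
    ring

/-- The arithmetic at the end of the proof. -/
theorem arith_end {h e e0 E S2 : ℤ} (he2 : e ^ 2 ≤ h) (h2 : 2 ≤ e0) (h3 : e0 ≤ 2 * e - 3)
    (hE : E = 2 * h - e0) (hC : E ^ 2 ≤ (h - 1) * S2) (hS : S2 ≤ e0 ^ 2 + 2 * e) : False := by
  have he3 : 3 ≤ e := by omega
  have hh : 9 ≤ h := by nlinarith
  have h4 : (h - 1) * S2 ≤ (h - 1) * (e0 ^ 2 + 2 * e) := mul_le_mul_of_nonneg_left hS (by omega)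
  have h5 : e0 ^ 2 ≤ (2 * e - 3) ^ 2 := pow_le_pow_left₀ (by omega) h3 2
  have h6 : e0 ^ 2 + 2 * e ≤ 4 * h - 10 * e + 9 := by nlinarith
  have h7 : (h - 1) * (e0 ^ 2 + 2 * e) ≤ (h - 1) * (4 * h - 10 * e + 9) :=
    mul_le_mul_of_nonneg_left h6 (by omega)
  have h8 : e ≤ h := by nlinarith
  have h9 : (2 * h - 2 * e + 3) ^ 2 ≤ E ^ 2 := by
    rw [hE]
    exact pow_le_pow_left₀ (by omega) (by omega) 2
  nlinarith

theorem AP.lemma_A (A : AP X D T q) {K : Finset X} {h e : ℕ} (hq : q = 2 * h) (hh2 : 2 ≤ h) (he : 1 ≤ e)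
    (he2 : e ^ 2 ≤ h) (hK : K.card + e = q * h) (s : D → ℕ)
    (hs : ∀ d t, (K.filter (fun x => A.p d x = t)).card ≤ s d) :
    q * h + q ≤ ∑ d, s d := by
  by_contra hcon
  push Not at hcon
  have hcon' : (∑ d, (s d : ℤ)) ≤ q * h + q - 1 := by
    have : ((∑ d, s d : ℕ) : ℤ) < ((q * h + q : ℕ) : ℤ) := by exact_mod_cast hcon
    push_cast at this
    linarith
  have hqz : (q : ℤ) = 2 * h := by exact_mod_cast hq
  have hez : (1 : ℤ) ≤ e := by exact_mod_cast he
  have he2z : (e : ℤ) ^ 2 ≤ h := by exact_mod_cast he2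
  have hu : (K.card : ℤ) = q * h - e := by
    have : ((K.card + e : ℕ) : ℤ) = ((q * h : ℕ) : ℤ) := by rw [hK]
    push_cast at this
    linarith
  have hh2z : (2 : ℤ) ≤ h := by exact_mod_cast hh2
  have heh : (e : ℤ) < h := by nlinarith
  set S := A.S K with hSdef
  have hS0 : ∀ d t, 0 ≤ S d t := A.S_nonneg K
  have hSs : ∀ d t, S d t ≤ (s d : ℤ) := fun d t => by
    rw [hSdef]
    unfold AP.S
    exact_mod_cast hs d t
  have hsumT : ∀ d, ∑ t, S d t = (q : ℤ) * h - e := fun d => by rw [hSdef, A.sumT, hu]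
  have hsumD : ∀ x, ∑ d, S d (A.p d x) = (q : ℤ) * h - e + if x ∈ K then (q : ℤ) else 0 := fun x => by
    rw [hSdef, A.sumD, hu]
  have hcT : (Fintype.card T : ℤ) = q := by exact_mod_cast A.cT
  have hcD : (Fintype.card D : ℤ) = q + 1 := by exact_mod_cast A.cD
  set M : D → ℤ := fun d => (s d : ℤ) - h with hMdef
  have hsM : ∀ d, (s d : ℤ) = h + M d := fun d => by rw [hMdef]; ring
  have hM0 : ∀ d, 0 ≤ M d := by
    intro d
    by_contra hneg
    have h1 : (s d : ℤ) ≤ h - 1 := by
      have := hsM d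
      omega
    have h2 : ∑ t, S d t ≤ ∑ _t : T, ((h : ℤ) - 1) :=
      Finset.sum_le_sum fun t _ => (hSs d t).trans h1
    rw [hsumT, Finset.sum_const, Finset.card_univ, nsmul_eq_mul, hcT] at h2
    nlinarith
  set m : ℤ := ∑ d, M d with hmdef
  have hsum : ∑ d, (s d : ℤ) = (q + 1) * h + m := by
    rw [Finset.sum_congr rfl fun d _ => hsM d, Finset.sum_add_distrib, Finset.sum_const,
      Finset.card_univ, nsmul_eq_mul, hcD]
  have hm : m ≤ h - 1 := by
    rw [hsum] at hcon'
    nlinarith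
  set c : ℤ := m + e - h with hcdef
  have hce : c ≤ e - 1 := by omega
  -- the function D
  set Df : X → ℤ := fun x => ∑ d, ((s d : ℤ) - S d (A.p d x)) with hDdef
  have hD : ∀ x, Df x = c + if x ∈ K then 0 else (q : ℤ) := by
    intro x
    rw [hDdef]
    simp only
    rw [Finset.sum_sub_distrib, hsum, hsumD]
    split_ifs <;> rw [hcdef, hqz] <;> ring
  have hterm : ∀ d x, (s d : ℤ) - S d (A.p d x) ≤ Df x := fun d x =>
    Finset.single_le_sum (f := fun d => (s d : ℤ) - S d (A.p d x))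
      (fun d _ => sub_nonneg.2 (hSs d _)) (mem_univ d)
  have hKne : K.Nonempty := by
    rw [← Finset.card_pos]
    have : (0 : ℤ) < K.card := by
      rw [hu]
      nlinarith
    exact_mod_cast this
  have hc0 : 0 ≤ c := by
    obtain ⟨x, hx⟩ := hKne
    have h1 := hD x
    rw [if_pos hx, add_zero] at h1
    rw [← h1, hDdef]
    exact Finset.sum_nonneg fun d _ => sub_nonneg.2 (hSs d _)
  -- nonempty lines
  have hdef : ∀ d t, S d t ≠ 0 → (s d : ℤ) - S d t ≤ c := by
    intro d t ht
    have h1 : (K.filter (fun x => A.p d x = t)).Nonempty := by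
      rw [Finset.nonempty_iff_ne_empty]
      intro h2
      apply ht
      rw [hSdef]
      unfold AP.S
      rw [h2]
      rfl
    obtain ⟨x, hx⟩ := h1
    rw [Finset.mem_filter] at hx
    have h2 := hterm d x
    rw [hD, if_pos hx.1, add_zero, hx.2] at h2
    exact h2
  set U : D → Finset T := fun d => univ.filter (fun t => S d t = 0) with hUdef
  have hU : ∀ d t, t ∈ U d ↔ S d t = 0 := fun d t => by
    rw [hUdef]
    simp only [Finset.mem_filter, Finset.mem_univ, true_and]
  set w : D → ℤ := fun d => ((U d).card : ℤ) with hwdef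
  have hw0 : ∀ d, 0 ≤ w d := fun d => Int.natCast_nonneg _
  set Y : D → ℤ := fun d => q * M d + e - w d * (h + M d) with hYdef
  have hYsum : ∀ d, ∑ t ∈ univ.filter (fun t => ¬ S d t = 0), ((s d : ℤ) - S d t) = Y d := by
    intro d
    have h1 := Finset.sum_filter_add_sum_filter_not (univ : Finset T) (fun t => S d t = 0)
      (fun t => (s d : ℤ) - S d t)
    have h2 : ∑ t ∈ univ.filter (fun t => S d t = 0), ((s d : ℤ) - S d t) = w d * (h + M d) := by
      rw [Finset.sum_congr rfl (g := fun _ => (h : ℤ) + M d), Finset.sum_const, nsmul_eq_mul]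
      intro t ht
      rw [(Finset.mem_filter.1 ht).2, sub_zero, hsM]
    have h3 : ∑ t, ((s d : ℤ) - S d t) = q * (h + M d) - (q * h - e) := by
      rw [Finset.sum_sub_distrib, hsumT, Finset.sum_const, Finset.card_univ, nsmul_eq_mul, hcT, hsM]
    rw [h2, h3] at h1
    rw [hYdef]
    simp only
    linarith
  have hY0 : ∀ d, 0 ≤ Y d := fun d => by
    rw [← hYsum]
    exact Finset.sum_nonneg fun t _ => sub_nonneg.2 (hSs d _)
  have hch : c < h := by omega
  have hstar : ((h : ℤ) - c) * ∑ d, Y d ≤ c * (q * h - e) := by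
    have h1 : ∑ x ∈ K, Df x = c * (q * h - e) := by
      rw [Finset.sum_congr rfl (g := fun _ => c), Finset.sum_const, nsmul_eq_mul, hu, mul_comm]
      intro x hx
      rw [hD, if_pos hx, add_zero]
    have h2 : ∑ x ∈ K, Df x = ∑ d, ∑ t, S d t * ((s d : ℤ) - S d t) := by
      rw [hDdef]
      simp only
      rw [Finset.sum_comm]
      refine Finset.sum_congr rfl fun d _ => ?_
      exact A.sum_fiber K d (fun t => (s d : ℤ) - S d t)
    rw [← h1, h2, Finset.mul_sum]
    refine Finset.sum_le_sum fun d _ => ?_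
    rw [← hYsum, Finset.mul_sum, ← Finset.sum_filter_add_sum_filter_not (univ : Finset T)
      (fun t => S d t = 0) (fun t => S d t * ((s d : ℤ) - S d t))]
    have h3 : ∑ t ∈ univ.filter (fun t => S d t = 0), S d t * ((s d : ℤ) - S d t) = 0 :=
      Finset.sum_eq_zero fun t ht => by rw [(Finset.mem_filter.1 ht).2, zero_mul]
    rw [h3, zero_add]
    refine Finset.sum_le_sum fun t ht => ?_
    have h4 := hdef d t (Finset.mem_filter.1 ht).2
    have h5 := hsM d
    have h6 := hM0 d
    exact mul_le_mul_of_nonneg_right (by linarith) (sub_nonneg.2 (hSs d t))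
  have hstar' : ¬ ((q : ℤ) * (c + 1) ≤ ∑ d, Y d) := by
    intro h1
    have h2 : ((h : ℤ) - c) * (q * (c + 1)) ≤ c * (q * h - e) :=
      (mul_le_mul_of_nonneg_left h1 (by linarith)).trans hstar
    have h3 : c ^ 2 + c < h := by nlinarith
    have h4 : 0 ≤ c * e := mul_nonneg hc0 (by linarith)
    have h5 : (q : ℤ) * (h - (c ^ 2 + c)) ≤ 0 := by nlinarith
    have h6 : 0 < (q : ℤ) * (h - (c ^ 2 + c)) := mul_pos (by linarith) (by linarith)
    linarith
  have hw2 : ∀ d, w d ≤ 2 * M d := by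
    intro d
    by_contra hneg
    push Not at hneg
    have h1 : 2 * M d + 1 ≤ w d := hneg
    have h2 := hY0 d
    rw [hYdef] at h2
    simp only at h2
    have h3 := hM0 d
    have h4 : (2 * M d + 1) * (h + M d) ≤ w d * (h + M d) :=
      mul_le_mul_of_nonneg_right h1 (by linarith)
    have h5 : (2 * M d + 1) * (h + M d) ≤ q * M d + e := by linarith
    rw [hqz] at h5
    have h7 : 0 ≤ M d * M d := mul_nonneg h3 h3
    nlinarith
  have hM1 : ∀ d, 1 ≤ w d → 1 ≤ M d := by
    intro d h1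
    have := hw2 d
    omega
  -- two directions with empty lines
  have hF : ∀ d d', d ≠ d' → 1 ≤ w d → 1 ≤ w d' → M d + M d' ≤ c := by
    intro d d' hne h1 h2
    have hn : ∀ d, 1 ≤ w d → ∃ t, S d t = 0 := by
      intro d h3
      rw [hwdef] at h3
      simp only at h3
      have h4 : 0 < (U d).card := by exact_mod_cast h3
      obtain ⟨t, ht⟩ := Finset.card_pos.1 h4
      exact ⟨t, (hU d t).1 ht⟩
    obtain ⟨t, ht⟩ := hn d h1
    obtain ⟨t', ht'⟩ := hn d' h2
    have h5 : 0 < (univ.filter (fun x => A.p d x = t ∧ A.p d' x = t')).card := by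
      rw [A.meet d d' hne t t']
      exact one_pos
    obtain ⟨x, hx⟩ := Finset.card_pos.1 h5
    obtain ⟨-, hx1, hx2⟩ := Finset.mem_filter.1 hx
    have h6 : ∑ d'' ∈ ({d, d'} : Finset D), ((s d'' : ℤ) - S d'' (A.p d'' x)) ≤ Df x :=
      Finset.sum_le_univ_sum_of_nonneg (f := fun d => (s d : ℤ) - S d (A.p d x))
        (fun d => sub_nonneg.2 (hSs d _))
    rw [Finset.sum_pair hne, hx1, hx2, ht, ht', hsM, hsM, hD] at h6
    have h7 : (if x ∈ K then 0 else (q : ℤ)) ≤ q := by
      split_ifs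
      · linarith
      · exact le_refl _
    linarith
  have hEm : ∑ d, w d ≤ 2 * m := by
    rw [hmdef, Finset.mul_sum]
    exact Finset.sum_le_sum fun d _ => hw2 d
  by_cases hcase : ∃ d0, ∀ d, d ≠ d0 → w d = 0
  · obtain ⟨d0, hd0⟩ := hcase
    apply hstar'
    have h1 : ∑ d ∈ univ.erase d0, (e : ℤ) ≤ ∑ d ∈ univ.erase d0, Y d := by
      refine Finset.sum_le_sum fun d hd => ?_
      have h2 := hd0 d (Finset.ne_of_mem_erase hd)
      rw [hYdef]
      simp only
      rw [h2, zero_mul, sub_zero]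
      have h3 : 0 ≤ (q : ℤ) * M d := mul_nonneg (by linarith) (hM0 d)
      linarith
    have h2 : ((univ.erase d0).card : ℤ) = q := by
      rw [Finset.card_erase_of_mem (mem_univ _), Finset.card_univ, A.cD]
      simp
    rw [Finset.sum_const, nsmul_eq_mul, h2] at h1
    have h3 := Finset.add_sum_erase univ Y (mem_univ d0)
    have h4 := hY0 d0
    have h5 : (q : ℤ) * (c + 1) ≤ q * e := mul_le_mul_of_nonneg_left (by linarith) (by linarith)
    linarith
  push Not at hcase
  have hMc : ∀ d, 1 ≤ w d → M d ≤ c - 1 := by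
    intro d h1
    obtain ⟨d', hne, h2⟩ := hcase d
    have h3 : 1 ≤ w d' := by
      have := hw0 d'
      omega
    have h4 := hF d d' hne.symm h1 h3
    have h5 := hM1 d' h3
    linarith
  have hEc : (q : ℤ) - 2 * c + 1 ≤ ∑ d, w d := by
    by_contra hneg
    push Not at hneg
    apply hstar'
    have h1 : ∑ d, Y d = q * m + (q + 1) * e - ∑ d, w d * (h + M d) := by
      rw [hYdef]
      simp only
      rw [Finset.sum_sub_distrib, Finset.sum_add_distrib, ← Finset.mul_sum, Finset.sum_const,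
        Finset.card_univ, nsmul_eq_mul, hcD]
    have h2 : ∑ d, w d * (h + M d) ≤ (∑ d, w d) * (h + c - 1) := by
      rw [Finset.sum_mul]
      refine Finset.sum_le_sum fun d _ => ?_
      rcases (hw0 d).eq_or_lt with h3 | h3
      · rw [← h3, zero_mul, zero_mul]
      · have h4 := hMc d h3
        exact mul_le_mul_of_nonneg_left (by linarith) h3.le
    have h3 : (∑ d, w d) * (h + c - 1) ≤ (q - 2 * c) * (h + c - 1) :=
      mul_le_mul_of_nonneg_right (by linarith) (by linarith)
    have h4 : 0 ≤ c * (c - 1) := by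
      rcases hc0.eq_or_lt with h5 | h5
      · rw [← h5]; norm_num
      · exact mul_nonneg hc0 (by linarith)
    have h5 : m = c + h - e := by rw [hcdef]; ring
    rw [h1, h5]
    rw [hqz] at h3 ⊢
    nlinarith
  -- moments
  obtain ⟨hm1, hm2⟩ := A.moments U
  set j : X → ℤ := fun x => ∑ d, if A.p d x ∈ U d then (1 : ℤ) else 0 with hjdef
  have hjK : ∀ x ∈ K, j x = 0 := by
    intro x hx
    rw [hjdef]
    refine Finset.sum_eq_zero fun d _ => ?_
    rw [if_neg]
    intro h1
    rw [hU, hSdef] at h1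
    unfold AP.S at h1
    have h2 : (K.filter (fun y => A.p d y = A.p d x)).card = 0 := by exact_mod_cast h1
    rw [Finset.card_eq_zero] at h2
    have h3 : x ∈ K.filter (fun y => A.p d y = A.p d x) := Finset.mem_filter.2 ⟨hx, rfl⟩
    rw [h2] at h3
    exact absurd h3 (Finset.notMem_empty _)
  have hj2 : ∑ x, (3 * j x - j x ^ 2) ≤ 2 * ((q : ℤ) * q - (q * h - e)) := by
    have h1 : ∀ x, 3 * j x - j x ^ 2 ≤ 2 * (1 - if x ∈ K then (1 : ℤ) else 0) := by
      intro x
      by_cases hx : x ∈ K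
      · rw [hjK x hx, if_pos hx]
        norm_num
      · rw [if_neg hx]
        have h2 : 0 ≤ (j x - 1) * (j x - 2) := by
          rcases le_or_gt (j x) 1 with h3 | h3
          · exact mul_nonneg_of_nonpos_of_nonpos (by linarith) (by linarith)
          · exact mul_nonneg (by linarith) (by linarith [Int.add_one_le_iff.2 h3])
        nlinarith
    refine (Finset.sum_le_sum fun x _ => h1 x).trans ?_
    rw [← Finset.mul_sum, Finset.sum_sub_distrib, Finset.sum_boole, Finset.sum_const,
      Finset.card_univ, A.cardX, nsmul_eq_mul, mul_one, Finset.filter_mem_eq_inter,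
      Finset.univ_inter, hu]
    push_cast
    exact le_refl _
  rw [Finset.sum_sub_distrib, ← Finset.mul_sum] at hj2
  have hm1' : ∑ x, j x = q * ∑ d, w d := hm1
  have hm2' : ∑ x, j x ^ 2 = q * (∑ d, w d) + (∑ d, w d) ^ 2 - ∑ d, w d ^ 2 := hm2
  rw [hm1', hm2'] at hj2
  set E : ℤ := ∑ d, w d with hEdef
  have hS2 : ∑ d, w d ^ 2 ≤ (q - E) ^ 2 + 2 * e := by
    rw [hqz] at hj2 ⊢
    nlinarith
  have hCS : E ^ 2 ≤ (h - 1) * ∑ d, w d ^ 2 := by
    set P : Finset D := univ.filter (fun d => 1 ≤ w d) with hPdef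
    have h1 : E = ∑ d ∈ P, w d := by
      rw [hEdef, ← Finset.sum_filter_add_sum_filter_not univ (fun d => 1 ≤ w d)]
      rw [Finset.sum_eq_zero (s := univ.filter (fun d => ¬ 1 ≤ w d)), add_zero]
      intro d hd
      have h2 := (Finset.mem_filter.1 hd).2
      have h3 := hw0 d
      omega
    have h2 : (∑ d ∈ P, w d) ^ 2 ≤ P.card * ∑ d ∈ P, w d ^ 2 := sq_sum_le_card_mul_sum_sq
    have h3 : (P.card : ℤ) ≤ h - 1 := by
      have h4 : ∑ d ∈ P, (1 : ℤ) ≤ ∑ d ∈ P, M d :=
        Finset.sum_le_sum fun d hd => hM1 d (Finset.mem_filter.1 hd).2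
      have h5 : ∑ d ∈ P, M d ≤ m := by
        rw [hmdef]
        exact Finset.sum_le_univ_sum_of_nonneg hM0
      rw [Finset.sum_const, nsmul_eq_mul, mul_one] at h4
      linarith
    have h4 : ∑ d ∈ P, w d ^ 2 ≤ ∑ d, w d ^ 2 :=
      Finset.sum_le_univ_sum_of_nonneg fun d => sq_nonneg _
    rw [h1]
    refine h2.trans (mul_le_mul h3 h4 (Finset.sum_nonneg fun d _ => sq_nonneg _) (by linarith))
  refine arith_end (h := h) (e := e) (e0 := q - E) (E := E) (S2 := ∑ d, w d ^ 2) he2z ?_ ?_ ?_ hCS hS2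
  · rw [hqz]
    linarith
  · linarith
  · rw [hqz]
    ring

end Pool.Agent.Lib.MP_4dc748_co.TC
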