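import Pool.Agent.Lib.MP_4dc748_co.TC.AG

/-!
# The affine plane over a finite field, and the dual basis at a vector
-/

set_option autoImplicit false

namespace Pool.Agent.Lib.MP_4dc748_co.TC

open Finset

variable {F : Type} [Field F]

/-- The line of the direction d through x (its number). -/
def pF (d : Option F) (x : F × F) : F :=
  match d with
  | none => x.1
  | some m => x.2 + m * x.1

theorem pF_none (x : F × F) : pF none x = x.1 := rfl

theorem pF_some (m : F) (x : F × F) : pF (some m) x = x.2 + m * x.1 := rfl

/-- The affine plane over F. -/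
def apF (F : Type) [Field F] [Fintype F] [DecidableEq F] :
    AP (F × F) (Option F) F (Fintype.card F) where
  p := pF
  cT := rfl
  cD := by simp
  fib := by
    intro d t
    rcases d with _ | m
    · have h1 : univ.filter (fun x : F × F => pF none x = t) = univ.image (fun a : F => (t, a)) := by
        ext ⟨x, y⟩
        simp only [mem_filter, mem_univ, true_and, pF_none, mem_image, Prod.mk.injEq]
        constructor
        · intro h
          exact ⟨y, h.symm, rfl⟩
        · rintro ⟨a, h, -⟩
          exact h.symm
      rw [h1, Finset.card_image_of_injective _ (fun a b h => (Prod.mk.inj h).2), Finset.card_univ]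
    · have h1 : univ.filter (fun x : F × F => pF (some m) x = t) =
          univ.image (fun a : F => (a, t - m * a)) := by
        ext ⟨x, y⟩
        simp only [mem_filter, mem_univ, true_and, pF_some, mem_image, Prod.mk.injEq]
        constructor
        · intro h
          exact ⟨x, rfl, by rw [← h]; ring⟩
        · rintro ⟨a, h, h'⟩
          rw [← h', ← h]
          ring
      rw [h1, Finset.card_image_of_injective _ (fun a b h => (Prod.mk.inj h).1), Finset.card_univ]
  one := by
    intro x y hxy
    rw [Finset.card_eq_one]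
    by_cases h1 : x.1 = y.1
    · refine ⟨none, ?_⟩
      ext d
      simp only [mem_filter, mem_univ, true_and, mem_singleton]
      rcases d with _ | m
      · simp [pF_none, h1]
      · simp only [pF_some, reduceCtorEq, iff_false, h1]
        intro h2
        exact hxy (Prod.ext h1 (add_right_cancel h2))
    · refine ⟨some ((y.2 - x.2) / (x.1 - y.1)), ?_⟩
      have h3 : x.1 - y.1 ≠ 0 := sub_ne_zero.2 h1
      ext d
      simp only [mem_filter, mem_univ, true_and, mem_singleton]
      rcases d with _ | m
      · simp [pF_none, h1]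
      · rw [pF_some, pF_some, Option.some.injEq, eq_div_iff h3]
        constructor <;> intro h2 <;> linear_combination h2
  meet := by
    intro d e hde t u
    rw [Finset.card_eq_one]
    rcases d with _ | m <;> rcases e with _ | m'
    · exact absurd rfl hde
    · refine ⟨(t, u - m' * t), ?_⟩
      ext ⟨x, y⟩
      simp only [mem_filter, mem_univ, true_and, mem_singleton, pF_some, pF_none, Prod.mk.injEq]
      constructor
      · rintro ⟨h1, h2⟩
        exact ⟨h1, by rw [← h2, h1]; ring⟩
      · rintro ⟨h1, h2⟩
        exact ⟨h1, by rw [h2, h1]; ring⟩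
    · refine ⟨(u, t - m * u), ?_⟩
      ext ⟨x, y⟩
      simp only [mem_filter, mem_univ, true_and, mem_singleton, pF_some, pF_none, Prod.mk.injEq]
      constructor
      · rintro ⟨h1, h2⟩
        exact ⟨h2, by rw [← h1, h2]; ring⟩
      · rintro ⟨h1, h2⟩
        exact ⟨by rw [h2, h1]; ring, h1⟩
    · have hm : m - m' ≠ 0 := sub_ne_zero.2 fun h => hde (by rw [h])
      refine ⟨((t - u) / (m - m'), t - m * ((t - u) / (m - m'))), ?_⟩
      ext ⟨x, y⟩
      simp only [mem_filter, mem_univ, true_and, mem_singleton, pF_some, Prod.mk.injEq]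
      constructor
      · rintro ⟨h1, h2⟩
        have h3 : x = (t - u) / (m - m') := by
          rw [eq_div_iff hm]
          linear_combination h1 - h2
        exact ⟨h3, by rw [← h3, ← h1]; ring⟩
      · rintro ⟨h1, h2⟩
        have h4 : x * (m - m') = t - u := by
          rw [h1, div_mul_cancel₀ _ hm]
        rw [← h1] at h2
        refine ⟨by rw [h2]; ring, ?_⟩
        rw [h2]
        linear_combination -h4

/-- The dual basis at a vector v ≠ 0. -/
theorem exists_perp {v : Fin 3 → F} (hv : v ≠ 0) :
    ∃ α β g : Fin 3 → F, α ⬝ᵥ v = 0 ∧ β ⬝ᵥ v = 0 ∧ g ⬝ᵥ v = 1 ∧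
      (∀ w : Fin 3 → F, α ⬝ᵥ w = 0 → β ⬝ᵥ w = 0 → ∃ c : F, w = c • v) ∧
      α ≠ 0 ∧ ∀ m : F, β + m • α ≠ 0 := by
  obtain ⟨i, hi⟩ := Function.ne_iff.1 hv
  rw [Pi.zero_apply] at hi
  have key : ∀ (k : Fin 3) (w : Fin 3 → F),
      (v i • Pi.single k (1 : F) - v k • Pi.single i (1 : F)) ⬝ᵥ w = v i * w k - v k * w i := by
    intro k w
    rw [sub_dotProduct, smul_dotProduct, smul_dotProduct, single_dotProduct, single_dotProduct,
      one_mul, one_mul, smul_eq_mul, smul_eq_mul]
  have hne : ∀ k : Fin 2, i.succAbove k ≠ i := fun k => Fin.succAbove_ne i k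
  have h01 : i.succAbove 0 ≠ i.succAbove 1 := by
    intro h
    exact absurd (Fin.succAbove_right_injective h) (by decide)
  refine ⟨v i • Pi.single (i.succAbove 0) (1 : F) - v (i.succAbove 0) • Pi.single i (1 : F),
    v i • Pi.single (i.succAbove 1) (1 : F) - v (i.succAbove 1) • Pi.single i (1 : F),
    (v i)⁻¹ • Pi.single i (1 : F), ?_, ?_, ?_, ?_, ?_, ?_⟩
  · rw [key]; ring
  · rw [key]; ring
  · rw [smul_dotProduct, single_dotProduct, one_mul, smul_eq_mul, inv_mul_cancel₀ hi]
  · intro w h1 h2
    rw [key] at h1 h2
    refine ⟨w i / v i, ?_⟩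
    have h3 : ∀ k : Fin 2, w (i.succAbove k) = w i / v i * v (i.succAbove k) := by
      intro k
      rw [div_mul_eq_mul_div, eq_div_iff hi]
      have : k = 0 ∨ k = 1 := by
        rcases k with ⟨k, hk⟩
        interval_cases k <;> simp
      rcases this with rfl | rfl
      · linear_combination h1
      · linear_combination h2
    funext l
    rw [Pi.smul_apply, smul_eq_mul]
    rcases Fin.eq_self_or_eq_succAbove i l with rfl | ⟨k, rfl⟩
    · rw [div_mul_cancel₀ _ hi]
    · exact h3 k
  · intro h
    have h1 := congrFun h (i.succAbove 0)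
    simp only [Pi.sub_apply, Pi.smul_apply, Pi.single_eq_same, Pi.zero_apply, smul_eq_mul,
      Pi.single_eq_of_ne (hne 0), mul_one, mul_zero, sub_zero] at h1
    exact hi h1
  · intro m h
    have h1 := congrFun h (i.succAbove 1)
    simp only [Pi.add_apply, Pi.sub_apply, Pi.smul_apply, Pi.single_eq_same, Pi.zero_apply,
      smul_eq_mul, Pi.single_eq_of_ne (hne 1), Pi.single_eq_of_ne h01.symm, mul_one, mul_zero,
      sub_zero, add_zero] at h1
    exact hi h1

/-- The functional of the direction d. -/
def Ad (α β : Fin 3 → F) (d : Option F) : Fin 3 → F :=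
  match d with
  | none => α
  | some m => β + m • α

theorem Ad_dot (α β w : Fin 3 → F) (d : Option F) :
    Ad α β d ⬝ᵥ w = pF d (α ⬝ᵥ w, β ⬝ᵥ w) := by
  rcases d with _ | m
  · rfl
  · change (β + m • α) ⬝ᵥ w = β ⬝ᵥ w + m * (α ⬝ᵥ w)
    rw [add_dotProduct, smul_dotProduct, smul_eq_mul]

/-- Exactly one direction is orthogonal to a given vector outside of the class. -/
theorem card_dir [Fintype F] [DecidableEq F] {x : F × F} (hx : x ≠ 0) :
    (univ.filter (fun d : Option F => pF d x = 0)).card = 1 := by
  have h1 := (apF F).one x 0 hx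
  have h2 : ∀ d : Option F, (apF F).p d 0 = 0 := by
    intro d
    rcases d with _ | m
    · rfl
    · change (0 : F) + m * 0 = 0
      ring
  simp only [h2] at h1
  exact h1

end Pool.Agent.Lib.MP_4dc748_co.TC
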