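import Pool.Agent.Lib.MP_4dc748_co.TC.ZSet
import Pool.Agent.Lib.MP_4dc748_co.TA.Defs

/-!
# The arc of the lower bound: the lines
-/

set_option autoImplicit false

open scoped Classical

namespace Pool.Agent.Lib.MP_4dc748_co.TC

open Finset Pool.Agent.Lib.MP_4dc748_co.TA

variable {F : Type} [Field F] [Fintype F] (s : F ≃+* F)

/-- The weight of the class (x, y, 1). -/
noncomputable def wt (x y : F) : F := if x ≠ 0 then x * s x ^ 2 else y * s y ^ 2

theorem wt_ne {x y : F} (h : (x, y) ≠ (0, 0)) : wt s x y ≠ 0 := by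
  unfold wt
  by_cases hx : x = 0
  · rw [if_neg (not_not.2 hx)]
    have hy : y ≠ 0 := fun hy => h (by rw [hx, hy])
    have hy' : s y ≠ 0 := by simpa using hy
    exact mul_ne_zero hy (pow_ne_zero 2 hy')
  · rw [if_pos hx]
    have hx' : s x ≠ 0 := by simpa using hx
    exact mul_ne_zero hx (pow_ne_zero 2 hx')

/-- The points of the arc off the line l0. -/
noncomputable def offS (τ : Tr F) : Finset ((F × F) × (F × F)) :=
  univ.filter (fun p => p.1 ≠ (0, 0) ∧
    τ.T ((wt s p.1.1 p.1.2)⁻¹ * (p.1.2 * p.2.1 + p.1.1 * p.2.2)) = 1)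

/-- The points of the arc on the line l0. -/
noncomputable def onS (Z : Option F → Finset F) : Finset (Option F × (F × F)) :=
  univ.filter (fun p => p.2.2 ∈ Z p.1)

def offv (p : (F × F) × (F × F)) : Fin 3 → F := ![p.1.1, p.1.2, 1]

def offb (p : (F × F) × (F × F)) : Fin 3 → F := ![p.2.1, p.2.2, 0]

def onv (p : Option F × (F × F)) : Fin 3 → F :=
  match p.1 with
  | none => ![0, 1, 0]
  | some m => ![1, m, 0]

def onb (p : Option F × (F × F)) : Fin 3 → F :=
  match p.1 with
  | none => ![p.2.1, 0, p.2.2]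
  | some _ => ![0, p.2.1, p.2.2]

theorem inc_off (a c : Fin 3 → F) (x y b0 b1 : F) :
    Inc s a c (offv ((x, y), (b0, b1))) (offb ((x, y), (b0, b1))) ↔
      a 0 * x + a 1 * y + a 2 = 0 ∧
      a 0 * b0 + a 1 * b1 + (c 0 * s x + c 1 * s y + c 2) = 0 := by
  unfold Inc offv offb dotProduct
  simp [Fin.sum_univ_three]

theorem inc_on_none (a c : Fin 3 → F) (f z : F) :
    Inc s a c (onv (none, (f, z))) (onb (none, (f, z))) ↔
      a 1 = 0 ∧ a 0 * f + a 2 * z + c 1 = 0 := by
  unfold Inc onv onb dotProduct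
  simp [Fin.sum_univ_three]

theorem inc_on_some (a c : Fin 3 → F) (m f z : F) :
    Inc s a c (onv (some m, (f, z))) (onb (some m, (f, z))) ↔
      a 0 + a 1 * m = 0 ∧ a 1 * f + a 2 * z + (c 0 + c 1 * s m) = 0 := by
  unfold Inc onv onb dotProduct
  simp [Fin.sum_univ_three]

theorem card_prod_le {A B : Type} [Fintype A] [Fintype B] (S : Finset A) (T : Finset B)
    {X : Type} (P : Finset X) (f : X → A × B) (hf : ∀ x ∈ P, (f x).1 ∈ S ∧ (f x).2 ∈ T)
    (hinj : ∀ x ∈ P, ∀ y ∈ P, f x = f y → x = y) : P.card ≤ S.card * T.card := by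
  rw [← Finset.card_product]
  refine Finset.card_le_card_of_injOn f ?_ ?_
  · intro x hx
    rw [mem_coe, mem_product]
    exact hf x hx
  · intro x hx y hy hxy
    exact hinj x hx y hy hxy

/-- Lines off the class x0 and different from l0. -/
theorem off_le_A (τ : Tr F) {h : ℕ} (hq : Fintype.card F = 2 * h) [CharP F 2] (a c : Fin 3 → F)
    (h2 : a 2 ≠ 0) :
    ((offS s τ).filter (fun p => Inc s a c (offv p) (offb p))).card ≤ Fintype.card F * h := by
  have hone : (univ.filter (fun z : F => τ.T (1 * z) = 1)).card = h := τ.half hq one_ne_zero 1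
  by_cases h1 : a 1 = 0
  · by_cases h0 : a 0 = 0
    · have he : (offS s τ).filter (fun p => Inc s a c (offv p) (offb p)) = ∅ := by
        rw [Finset.filter_eq_empty_iff]
        rintro ⟨⟨x, y⟩, ⟨b0, b1⟩⟩ _ hinc
        have := ((inc_off s a c x y b0 b1).1 hinc).1
        rw [h0, h1, zero_mul, zero_mul, zero_add, zero_add] at this
        exact h2 this
      rw [he]
      exact Nat.zero_le _
    · -- x is fixed, the coordinate is y
      conv_rhs => rw [← hone, ← Finset.card_univ]
      refine card_prod_le _ _ _ (fun p => (p.1.2, (wt s p.1.1 p.1.2)⁻¹ *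
        (p.1.2 * p.2.1 + p.1.1 * p.2.2))) ?_ ?_
      · rintro ⟨⟨x, y⟩, ⟨b0, b1⟩⟩ hp
        rw [mem_filter] at hp
        have hp1 := (mem_filter.1 hp.1).2
        exact ⟨mem_univ _, mem_filter.2 ⟨mem_univ _, by rw [one_mul]; exact hp1.2⟩⟩
      · rintro ⟨⟨x, y⟩, ⟨b0, b1⟩⟩ hp ⟨⟨x', y'⟩, ⟨b0', b1'⟩⟩ hp' heq
        rw [mem_filter] at hp hp'
        obtain ⟨hl1, hl2⟩ := (inc_off s a c x y b0 b1).1 hp.2
        obtain ⟨hl1', hl2'⟩ := (inc_off s a c x' y' b0' b1').1 hp'.2
        have hw := wt_ne s (mem_filter.1 hp.1).2.1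
        simp only [Prod.mk.injEq] at heq
        obtain ⟨hy, hz⟩ := heq
        have hx : x = x' := by
          rw [h1] at hl1 hl1'
          have : a 0 * x = a 0 * x' := by linear_combination hl1 - hl1'
          exact mul_left_cancel₀ h0 this
        subst hx hy
        have hz' := mul_left_cancel₀ (inv_ne_zero hw) hz
        rw [h1] at hl2 hl2' hl1
        have hb0 : b0 = b0' := by
          have : a 0 * b0 = a 0 * b0' := by linear_combination hl2 - hl2'
          exact mul_left_cancel₀ h0 this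
        subst hb0
        have hx0 : x ≠ 0 := by
          rintro rfl
          rw [mul_zero, zero_mul, zero_add, zero_add] at hl1
          exact h2 hl1
        have hb1 : b1 = b1' := mul_left_cancel₀ hx0 (by linear_combination hz')
        rw [hb1]
  · conv_rhs => rw [← hone, ← Finset.card_univ]
    refine card_prod_le _ _ _ (fun p => (p.1.1, (wt s p.1.1 p.1.2)⁻¹ *
      (p.1.2 * p.2.1 + p.1.1 * p.2.2))) ?_ ?_
    · rintro ⟨⟨x, y⟩, ⟨b0, b1⟩⟩ hp
      rw [mem_filter] at hp
      have hp1 := (mem_filter.1 hp.1).2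
      exact ⟨mem_univ _, mem_filter.2 ⟨mem_univ _, by rw [one_mul]; exact hp1.2⟩⟩
    · rintro ⟨⟨x, y⟩, ⟨b0, b1⟩⟩ hp ⟨⟨x', y'⟩, ⟨b0', b1'⟩⟩ hp' heq
      rw [mem_filter] at hp hp'
      obtain ⟨hl1, hl2⟩ := (inc_off s a c x y b0 b1).1 hp.2
      obtain ⟨hl1', hl2'⟩ := (inc_off s a c x' y' b0' b1').1 hp'.2
      have hw := wt_ne s (mem_filter.1 hp.1).2.1
      simp only [Prod.mk.injEq] at heq
      obtain ⟨hx, hz⟩ := heq
      have hy : y = y' := by
        rw [hx] at hl1
        have : a 1 * y = a 1 * y' := by linear_combination hl1 - hl1'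
        exact mul_left_cancel₀ h1 this
      subst hx hy
      have hz' := mul_left_cancel₀ (inv_ne_zero hw) hz
      -- a 0 b0 + a 1 b1 and y b0 + x b1 are equal for both; the determinant is a 2
      have h22 : (2 : F) = 0 := CharTwo.two_eq_zero
      have hb0 : b0 = b0' := by
        have : a 2 * b0 = a 2 * b0' := by
          linear_combination x * (hl2 - hl2') - a 1 * hz' + (b0' - b0) * hl1 +
            (a 2 * b0 - a 2 * b0' + a 1 * y * b0 - a 1 * y * b0') * h22
        exact mul_left_cancel₀ h2 this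
      subst hb0
      have hb1 : b1 = b1' := mul_left_cancel₀ h1 (by linear_combination hl2 - hl2')
      rw [hb1]

end Pool.Agent.Lib.MP_4dc748_co.TC
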