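import Pool.Agent.Lib.MP_4dc748_co.TC.Fam

/-!
# The arc of the lower bound: the other lines
-/

set_option autoImplicit false

open scoped Classical

namespace Pool.Agent.Lib.MP_4dc748_co.TC

open Finset Pool.Agent.Lib.MP_4dc748_co.TA

variable {F : Type} [Field F] [Fintype F] (s : F ≃+* F)

/-- The trace condition on the class x x0, t = 1 / s(x). -/
theorem trace_t [CharP F 2] (τ : Tr F) {e1 c2 k ρ x : F} (hρ : ρ ^ 2 = c2 * k) (hx : s x ≠ 0)
    (h : τ.T ((x * s x ^ 2)⁻¹ * (x * k * (s x * e1 + c2))) = 1) (hx0 : x ≠ 0) :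
    τ.T ((e1 * k + ρ) * (s x)⁻¹) = 1 := by
  have h1 : (x * s x ^ 2)⁻¹ * (x * k * (s x * e1 + c2)) =
      (e1 * k) * (s x)⁻¹ + ρ ^ 2 * (s x)⁻¹ ^ 2 := by
    rw [hρ]
    field_simp
  rw [h1, map_add, τ.mul_sq, ← map_add, ← add_mul] at h
  exact h

/-- Lines through the class x0. -/
theorem off_le_B [CharP F 2] (τ : Tr F) {h : ℕ} (hq : Fintype.card F = 2 * h) (a c : Fin 3 → F)
    (h2 : a 2 = 0) (ha : ¬ (a 0 = 0 ∧ a 1 = 0)) :
    ((offS s τ).filter (fun p => Inc s a c (offv p) (offb p))).card ≤ h * Fintype.card F := by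
  have h22 : (2 : F) = 0 := CharTwo.two_eq_zero
  by_cases h1 : a 1 = 0
  · have h0 : a 0 ≠ 0 := fun h0 => ha ⟨h0, h1⟩
    obtain ⟨ρ, hρ⟩ := exists_sqrt (c 2 * (a 0)⁻¹)
    refine le_trans ?_ (Nat.mul_le_mul_right _ (τ.half_le hq (κ := c 1 * (a 0)⁻¹ + ρ) (ε := 1)
      (fun _ => one_ne_zero)))
    conv_rhs => rw [← Finset.card_univ (α := F)]
    refine card_prod_le _ _ _ (fun p => ((s p.1.2)⁻¹, p.2.2)) ?_ ?_
    · rintro ⟨⟨x, y⟩, ⟨b0, b1⟩⟩ hp
      rw [mem_filter] at hp
      obtain ⟨hl1, hl2⟩ := (inc_off s a c x y b0 b1).1 hp.2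
      obtain ⟨hne, ht⟩ := (mem_filter.1 hp.1).2
      refine ⟨mem_filter.2 ⟨mem_univ _, ?_⟩, mem_univ _⟩
      simp only at hne ht ⊢
      have hx : x = 0 := by
        rw [h1, h2] at hl1
        have : a 0 * x = 0 := by linear_combination hl1
        exact (mul_eq_zero.1 this).resolve_left h0
      subst hx
      have hy : y ≠ 0 := fun hy => hne (by rw [hy])
      have hy' : s y ≠ 0 := by simpa using hy
      refine trace_t s τ (x := y) (e1 := c 1) hρ hy' ?_ hy
      have hb0 : b0 = (a 0)⁻¹ * (s y * c 1 + c 2) := by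
        rw [h1, map_zero] at hl2
        have : a 0 * b0 = s y * c 1 + c 2 := by
          linear_combination hl2 - (s y * c 1 + c 2) * h22
        rw [← this, ← mul_assoc, inv_mul_cancel₀ h0, one_mul]
      rw [← ht]
      congr 1
      unfold wt
      rw [if_neg (not_not.2 rfl), hb0]
      ring
    · rintro ⟨⟨x, y⟩, ⟨b0, b1⟩⟩ hp ⟨⟨x', y'⟩, ⟨b0', b1'⟩⟩ hp' heq
      rw [mem_filter] at hp hp'
      obtain ⟨hl1, hl2⟩ := (inc_off s a c x y b0 b1).1 hp.2
      obtain ⟨hl1', hl2'⟩ := (inc_off s a c x' y' b0' b1').1 hp'.2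
      simp only [Prod.mk.injEq] at heq
      obtain ⟨hy, hb⟩ := heq
      have hy1 : y = y' := s.injective (inv_injective hy)
      subst hy1 hb
      have hx : x = x' := by
        rw [h1, h2] at hl1 hl1'
        have : a 0 * x = a 0 * x' := by linear_combination hl1 - hl1'
        exact mul_left_cancel₀ h0 this
      subst hx
      have hb0 : b0 = b0' := mul_left_cancel₀ h0 (by linear_combination hl2 - hl2')
      rw [hb0]
  · obtain ⟨ρ, hρ⟩ := exists_sqrt (c 2 * (a 1)⁻¹)
    refine le_trans ?_ (Nat.mul_le_mul_right _ (τ.half_le hq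
      (κ := (c 0 + c 1 * s (a 0 * (a 1)⁻¹)) * (a 1)⁻¹ + ρ) (ε := 1)
      (fun _ => one_ne_zero)))
    conv_rhs => rw [← Finset.card_univ (α := F)]
    refine card_prod_le _ _ _ (fun p => ((s p.1.1)⁻¹, p.2.1)) ?_ ?_
    · rintro ⟨⟨x, y⟩, ⟨b0, b1⟩⟩ hp
      rw [mem_filter] at hp
      obtain ⟨hl1, hl2⟩ := (inc_off s a c x y b0 b1).1 hp.2
      obtain ⟨hne, ht⟩ := (mem_filter.1 hp.1).2
      refine ⟨mem_filter.2 ⟨mem_univ _, ?_⟩, mem_univ _⟩
      simp only at hne ht ⊢
      have hy : y = a 0 * (a 1)⁻¹ * x := by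
        rw [h2] at hl1
        have : a 1 * y = a 0 * x := by linear_combination hl1 - a 0 * x * h22
        rw [mul_comm (a 0), mul_assoc, ← this, ← mul_assoc, inv_mul_cancel₀ h1, one_mul]
      have hx : x ≠ 0 := by
        rintro rfl
        apply hne
        rw [hy, mul_zero]
      have hx' : s x ≠ 0 := by simpa using hx
      refine trace_t s τ (x := x) (e1 := c 0 + c 1 * s (a 0 * (a 1)⁻¹)) hρ hx' ?_ hx
      have hsy : s y = s (a 0 * (a 1)⁻¹) * s x := by rw [hy, map_mul]
      have hb : y * b0 + x * b1 =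
          x * (a 1)⁻¹ * (s x * (c 0 + c 1 * s (a 0 * (a 1)⁻¹)) + c 2) := by
        rw [hsy] at hl2
        have h3 : a 0 * b0 + a 1 * b1 = s x * (c 0 + c 1 * s (a 0 * (a 1)⁻¹)) + c 2 := by
          linear_combination hl2 - (s x * (c 0 + c 1 * s (a 0 * (a 1)⁻¹)) + c 2) * h22
        rw [← h3, hy]
        field_simp
      rw [← hb, ← ht]
      congr 2
      unfold wt
      rw [if_pos hx]
    · rintro ⟨⟨x, y⟩, ⟨b0, b1⟩⟩ hp ⟨⟨x', y'⟩, ⟨b0', b1'⟩⟩ hp' heq
      rw [mem_filter] at hp hp'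
      obtain ⟨hl1, hl2⟩ := (inc_off s a c x y b0 b1).1 hp.2
      obtain ⟨hl1', hl2'⟩ := (inc_off s a c x' y' b0' b1').1 hp'.2
      simp only [Prod.mk.injEq] at heq
      obtain ⟨hx, hb⟩ := heq
      have hx1 : x = x' := s.injective (inv_injective hx)
      subst hx1 hb
      have hy : y = y' := mul_left_cancel₀ h1 (by linear_combination hl1 - hl1')
      subst hy
      have hb0 : b1 = b1' := mul_left_cancel₀ h1 (by linear_combination hl2 - hl2')
      rw [hb0]

/-- The line l0 does not meet the classes off l0. -/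
theorem off_C (τ : Tr F) (a c : Fin 3 → F) (h2 : a 2 ≠ 0) (h0 : a 0 = 0) (h1 : a 1 = 0) :
    ((offS s τ).filter (fun p => Inc s a c (offv p) (offb p))).card = 0 := by
  rw [Finset.card_eq_zero, Finset.filter_eq_empty_iff]
  rintro ⟨⟨x, y⟩, ⟨b0, b1⟩⟩ _ hinc
  have := ((inc_off s a c x y b0 b1).1 hinc).1
  rw [h0, h1, zero_mul, zero_mul, zero_add, zero_add] at this
  exact h2 this

/-- Lines different from l0: the points on l0. -/
theorem on_le_A {Z : Option F → Finset F} {N : ℕ} (hZ : ∀ M, (Z M).card ≤ N) (a c : Fin 3 → F)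
    (ha : ¬ (a 0 = 0 ∧ a 1 = 0)) :
    ((onS Z).filter (fun p => Inc s a c (onv p) (onb p))).card ≤ N := by
  by_cases h1 : a 1 = 0
  · have h0 : a 0 ≠ 0 := fun h0 => ha ⟨h0, h1⟩
    refine le_trans (Finset.card_le_card_of_injOn (fun p => p.2.2) (t := Z none) ?_ ?_) (hZ none)
    · rintro ⟨M, ⟨f, z⟩⟩ hp
      rw [mem_coe, mem_filter] at hp
      rcases M with _ | m
      · exact (mem_filter.1 hp.1).2
      · have := ((inc_on_some s a c m f z).1 hp.2).1
        rw [h1, zero_mul, add_zero] at this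
        exact absurd this h0
    · rintro ⟨M, ⟨f, z⟩⟩ hp ⟨M', ⟨f', z'⟩⟩ hp' heq
      rw [mem_coe, mem_filter] at hp hp'
      simp only at heq
      rcases M with _ | m
      · rcases M' with _ | m'
        · have e1 := ((inc_on_none s a c f z).1 hp.2).2
          have e2 := ((inc_on_none s a c f' z').1 hp'.2).2
          rw [heq] at e1
          have : f = f' := mul_left_cancel₀ h0 (by linear_combination e1 - e2)
          rw [this, heq]
        · have := ((inc_on_some s a c m' f' z').1 hp'.2).1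
          rw [h1, zero_mul, add_zero] at this
          exact absurd this h0
      · have := ((inc_on_some s a c m f z).1 hp.2).1
        rw [h1, zero_mul, add_zero] at this
        exact absurd this h0
  · refine le_trans (Finset.card_le_card_of_injOn (fun p => p.2.2)
      (t := Z (some (-(a 0 / a 1)))) ?_ ?_) (hZ _)
    · rintro ⟨M, ⟨f, z⟩⟩ hp
      rw [mem_coe, mem_filter] at hp
      rcases M with _ | m
      · exact absurd ((inc_on_none s a c f z).1 hp.2).1 h1
      · have e1 := ((inc_on_some s a c m f z).1 hp.2).1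
        have e2 : m = -(a 0 / a 1) := by
          rw [← neg_div, eq_div_iff h1]
          linear_combination e1
        rw [← e2]
        exact (mem_filter.1 hp.1).2
    · rintro ⟨M, ⟨f, z⟩⟩ hp ⟨M', ⟨f', z'⟩⟩ hp' heq
      rw [mem_coe, mem_filter] at hp hp'
      simp only at heq
      rcases M with _ | m
      · exact absurd ((inc_on_none s a c f z).1 hp.2).1 h1
      · rcases M' with _ | m'
        · exact absurd ((inc_on_none s a c f' z').1 hp'.2).1 h1
        · obtain ⟨e1, e3⟩ := (inc_on_some s a c m f z).1 hp.2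
          obtain ⟨e2, e4⟩ := (inc_on_some s a c m' f' z').1 hp'.2
          have hm : m = m' := mul_left_cancel₀ h1 (by linear_combination e1 - e2)
          subst hm
          rw [heq] at e3
          have : f = f' := mul_left_cancel₀ h1 (by linear_combination e3 - e4)
          rw [this, heq]

/-- The line l0. -/
theorem on_le_C [CharP F 2] (τ : Tr F) {h : ℕ} (hq : Fintype.card F = 2 * h) {δ : F}
    (hδ : τ.T δ = 1) {Z : Option F → Finset F}
    (hZ : ∀ M, ∀ z ∈ Z M, InZ τ δ (M.map s) z) (a c : Fin 3 → F)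
    (h2 : a 2 ≠ 0) (h0 : a 0 = 0) (h1 : a 1 = 0) :
    ((onS Z).filter (fun p => Inc s a c (onv p) (onb p))).card ≤ h * Fintype.card F := by
  have h22 : (2 : F) = 0 := CharTwo.two_eq_zero
  have hcov := cover_InZ τ hq hδ (c 0 / a 2) (c 1 / a 2)
  have hz : ∀ M f z, Inc s a c (onv (M, (f, z))) (onb (M, (f, z))) →
      z = zM (c 0 / a 2) (c 1 / a 2) (M.map s) := by
    intro M f z hinc
    rcases M with _ | m
    · have e := ((inc_on_none s a c f z).1 hinc).2
      rw [h0] at e
      change z = c 1 / a 2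
      rw [eq_div_iff h2]
      linear_combination e - c 1 * h22
    · have e := ((inc_on_some s a c m f z).1 hinc).2
      rw [h1] at e
      change z = c 0 / a 2 + c 1 / a 2 * s m
      have e2 : a 2 * z = c 0 + c 1 * s m := by linear_combination e - (c 0 + c 1 * s m) * h22
      field_simp
      linear_combination e2
  refine le_trans ?_ (Nat.mul_le_mul_right _ hcov)
  conv_rhs => rw [← Finset.card_univ (α := F)]
  refine card_prod_le _ _ _ (fun p => (p.1.map s, p.2.1)) ?_ ?_
  · rintro ⟨M, ⟨f, z⟩⟩ hp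
    rw [mem_filter] at hp
    refine ⟨mem_filter.2 ⟨mem_univ _, ?_⟩, mem_univ _⟩
    rw [← hz M f z hp.2]
    exact hZ M z (mem_filter.1 hp.1).2
  · rintro ⟨M, ⟨f, z⟩⟩ hp ⟨M', ⟨f', z'⟩⟩ hp' heq
    rw [mem_filter] at hp hp'
    simp only [Prod.mk.injEq] at heq
    obtain ⟨e1, e2⟩ := heq
    have e3 : M = M' := Option.map_injective s.injective e1
    subst e3 e2
    rw [hz M f z hp.2, hz M f z' hp'.2]

end Pool.Agent.Lib.MP_4dc748_co.TC
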