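import Mathlib

/-!
# The absolute trace of a finite field of characteristic 2
-/

set_option autoImplicit false

open scoped Classical

namespace Pool.Agent.Lib.MP_4dc748_co.TC

open Finset

/-- A nonzero additive function with values in F_2 which is invariant under squaring. -/
structure Tr (F : Type) [Field F] where
  T : F →+ ZMod 2
  sq : ∀ x, T (x ^ 2) = T x
  one : ∃ x, T x = 1

theorem exists_Tr (F : Type) [Field F] [Finite F] [CharP F 2] : Nonempty (Tr F) := by
  let _ : Algebra (ZMod 2) F := ZMod.algebra F 2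
  refine ⟨{ T := (Algebra.trace (ZMod 2) F).toAddMonoidHom, sq := ?_, one := ?_ }⟩
  · intro x
    have h := Algebra.trace_eq_of_algEquiv (A := ZMod 2)
      (FiniteField.frobeniusAlgEquivOfAlgebraic (ZMod 2) F) x
    rw [FiniteField.coe_frobeniusAlgEquivOfAlgebraic, ZMod.card] at h
    exact h
  · have h2 : ∃ x, Algebra.trace (ZMod 2) F x ≠ 0 := by
      by_contra hcon
      push Not at hcon
      exact Algebra.trace_ne_zero (ZMod 2) F (LinearMap.ext hcon)
    obtain ⟨x, hx⟩ := h2
    refine ⟨x, ?_⟩
    change Algebra.trace (ZMod 2) F x = 1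
    revert hx
    generalize Algebra.trace (ZMod 2) F x = y
    revert y
    decide

variable {F : Type} [Field F] [Fintype F]

theorem zmod2 (x : ZMod 2) (h : x ≠ 0) : x = 1 := by
  revert x
  decide

theorem zmod2' (x : ZMod 2) (h : x ≠ 1) : x = 0 := by
  revert x
  decide

/-- Half of the elements have a given value. -/
theorem Tr.half (τ : Tr F) {h : ℕ} (hq : Fintype.card F = 2 * h) {κ : F} (hκ : κ ≠ 0)
    (ε : ZMod 2) : (univ.filter (fun z : F => τ.T (κ * z) = ε)).card = h := by
  obtain ⟨x, hx⟩ := τ.one
  have hx' : τ.T (κ * (x / κ)) = 1 := by rw [mul_div_cancel₀ _ hκ, hx]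
  have h1 : (univ.filter (fun z : F => τ.T (κ * z) = 0)).card =
      (univ.filter (fun z : F => τ.T (κ * z) = 1)).card := by
    refine Finset.card_bij (fun z _ => z + x / κ) ?_ ?_ ?_
    · intro z hz
      rw [mem_filter] at hz ⊢
      refine ⟨mem_univ _, ?_⟩
      rw [mul_add, map_add, hz.2, hx', zero_add]
    · intro a _ b _ hab
      exact add_right_cancel hab
    · intro z hz
      rw [mem_filter] at hz
      refine ⟨z - x / κ, ?_, sub_add_cancel _ _⟩
      rw [mem_filter]
      refine ⟨mem_univ _, ?_⟩
      rw [mul_sub, map_sub, hz.2, hx', sub_self]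
  have h2 : (univ.filter (fun z : F => τ.T (κ * z) = 0)).card +
      (univ.filter (fun z : F => τ.T (κ * z) = 1)).card = Fintype.card F := by
    rw [← Finset.card_univ, ← Finset.card_filter_add_card_filter_not
      (s := (univ : Finset F)) (fun z : F => τ.T (κ * z) = 0)]
    congr 2
    ext z
    simp only [mem_filter, mem_univ, true_and]
    constructor
    · intro h
      rw [h]
      exact one_ne_zero
    · exact zmod2 _
  rcases eq_or_ne ε 0 with rfl | hε
  · omega
  · rw [zmod2 ε hε]
    omega

theorem Tr.half_le (τ : Tr F) {h : ℕ} (hq : Fintype.card F = 2 * h) {κ : F}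
    {ε : ZMod 2} (hε : κ = 0 → ε ≠ 0) :
    (univ.filter (fun z : F => τ.T (κ * z) = ε)).card ≤ h := by
  by_cases hκ : κ = 0
  · have h1 : (univ.filter (fun z : F => τ.T (κ * z) = ε)) = ∅ := by
      rw [Finset.filter_eq_empty_iff]
      intro z _ h2
      rw [hκ, zero_mul, map_zero] at h2
      exact hε hκ h2.symm
    rw [h1]
    exact Nat.zero_le _
  · exact (τ.half hq hκ ε).le

end Pool.Agent.Lib.MP_4dc748_co.TC
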