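import Pool.Agent.Lib.MP_4dc748_co.TC.APF
import Pool.Agent.Lib.MP_4dc748_co.TC.AGL
import Pool.Agent.Lib.MP_4dc748_co.TA.Defs

/-!
# The residual inequality at a class
-/

set_option autoImplicit false

open scoped Classical

namespace Pool.Agent.Lib.MP_4dc748_co.TC

open Finset Pool.Agent.Lib.MP_4dc748_co.TA

variable {F : Type} [Field F] [Fintype F] {s : F ≃+* F} {ι : Type} [Fintype ι]

theorem comp_smul (c : F) (v : Fin 3 → F) : (s ∘ (c • v)) = s c • (s ∘ v) := by
  funext i
  simp

theorem comp_dot (v w : Fin 3 → F) : (s ∘ v) ⬝ᵥ (s ∘ w) = s (v ⬝ᵥ w) := by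
  unfold dotProduct
  rw [map_sum]
  exact Finset.sum_congr rfl fun i _ => (map_mul s _ _).symm

/-- Let C be the class of the point i0, u its number of points, k the number of all the points. There are numbers
s d (the largest number of points of the class on a line of the direction d) with
q (Sum of s d) + k <= (q + 1) q n + u, the sum is at least u + q, and at least q h + q if u = q h - e, e^2 <= h. -/
theorem residual {n : ℕ} (v b : ι → Fin 3 → F) (hv : ∀ i, v i ≠ 0)
    (hd : ∀ i j, i ≠ j → ∀ c d : F, ¬ (v j = c • v i ∧ b j = d • v i + s c • b i))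
    (hl : ∀ a c : Fin 3 → F, a ≠ 0 →
      (univ.filter (fun i => Inc s a c (v i) (b i))).card ≤ n) (i0 : ι) (u : ℕ)
    (hu : (univ.filter (fun i => ∃ l : F, v i = l • v i0)).card = u) :
    ∃ σ : ℕ, Fintype.card F * σ + Fintype.card ι ≤ (Fintype.card F + 1) * (Fintype.card F * n) + u ∧
      u + Fintype.card F ≤ σ ∧
      ∀ h e : ℕ, Fintype.card F = 2 * h → 2 ≤ h → 1 ≤ e → e ^ 2 ≤ h → u + e = Fintype.card F * h →
        Fintype.card F * h + Fintype.card F ≤ σ := by
  obtain ⟨α, β, g, hα, hβ, hg, hperp, hα0, hβ0⟩ := exists_perp (hv i0)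
  set C : Finset ι := univ.filter (fun i => ∃ l : F, v i = l • v i0) with hC
  have hCl : ∀ i, i ∈ C → ∃ l : F, v i = l • v i0 := fun i hi => (mem_filter.1 hi).2
  let lam : ι → F := fun i => if h : ∃ l : F, v i = l • v i0 then h.choose else 1
  have hlam : ∀ i ∈ C, v i = lam i • v i0 := by
    intro i hi
    have h1 := hCl i hi
    change v i = (if h : ∃ l : F, v i = l • v i0 then h.choose else 1) • v i0
    rw [dif_pos h1]
    exact h1.choose_spec
  have hlam0 : ∀ i ∈ C, lam i ≠ 0 := by
    intro i hi h0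
    have h1 := hlam i hi
    rw [h0, zero_smul] at h1
    exact hv i h1
  let f : ι → F × F := fun i =>
    (α ⬝ᵥ ((s (lam i))⁻¹ • b i), β ⬝ᵥ ((s (lam i))⁻¹ • b i))
  have hinj : Set.InjOn f (C : Set ι) := by
    intro i hi j hj hij
    by_contra hne
    have h1 : α ⬝ᵥ ((s (lam j))⁻¹ • b j - (s (lam i))⁻¹ • b i) = 0 := by
      rw [dotProduct_sub, sub_eq_zero]
      exact (Prod.mk.inj hij).1.symm
    have h2 : β ⬝ᵥ ((s (lam j))⁻¹ • b j - (s (lam i))⁻¹ • b i) = 0 := by
      rw [dotProduct_sub, sub_eq_zero]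
      exact (Prod.mk.inj hij).2.symm
    obtain ⟨c, hc⟩ := hperp _ h1 h2
    have hi0 := hlam0 i hi
    have hj0 := hlam0 j hj
    have hsj : s (lam j) ≠ 0 := by simpa using hj0
    refine hd i j hne (lam j / lam i) (s (lam j) * c / lam i) ⟨?_, ?_⟩
    · rw [hlam j hj, hlam i hi, smul_smul, div_mul_cancel₀ _ hi0]
    · have h3 : b j = s (lam j) • ((s (lam j))⁻¹ • b j) := by
        rw [smul_smul, mul_inv_cancel₀ hsj, one_smul]
      have h4 : (s (lam j))⁻¹ • b j = c • v i0 + (s (lam i))⁻¹ • b i := sub_eq_iff_eq_add.1 hc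
      rw [h3, h4, smul_add, hlam i hi, smul_smul, smul_smul, smul_smul, div_mul_cancel₀ _ hi0,
        map_div₀, div_eq_mul_inv]
  set K : Finset (F × F) := C.image f with hK
  have hKc : K.card = u := by
    rw [hK, Finset.card_image_of_injOn hinj, hu]
  have hseg : ∀ d t, (K.filter (fun x => (apF F).p d x = t)).card =
      (C.filter (fun i => pF d (f i) = t)).card := by
    intro d t
    rw [hK, Finset.filter_image, Finset.card_image_of_injOn]
    · rfl
    · intro i hi j hj hij
      exact hinj (mem_filter.1 hi).1 (mem_filter.1 hj).1 hij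
  -- the directions
  have hAv : ∀ d, Ad α β d ⬝ᵥ v i0 = 0 := by
    intro d
    rw [Ad_dot, hα, hβ]
    rcases d with _ | m
    · rfl
    · change (0 : F) + m * 0 = 0
      ring
  have hA0 : ∀ d, Ad α β d ≠ 0 := by
    intro d
    rcases d with _ | m
    · exact hα0
    · exact hβ0 m
  have hout : ∀ i, i ∉ C → ((α ⬝ᵥ v i, β ⬝ᵥ v i) : F × F) ≠ 0 := by
    intro i hi h0
    apply hi
    rw [hC, mem_filter]
    exact ⟨mem_univ _, hperp _ (Prod.mk.inj h0).1 (Prod.mk.inj h0).2⟩
  have hresT : ∀ d t, Fintype.card F * (C.filter (fun i => pF d (f i) = t)).card +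
      (univ.filter (fun i => i ∉ C ∧ Ad α β d ⬝ᵥ v i = 0)).card ≤ Fintype.card F * n := by
    intro d t
    obtain ⟨e, hed⟩ : ∃ e : Option F, e ≠ d := by
      rcases d with _ | m
      · exact ⟨some 0, by simp⟩
      · exact ⟨none, by simp⟩
    let c : F → Fin 3 → F := fun z => (-t) • (s ∘ g) + z • (s ∘ Ad α β e)
    have hc : ∀ z w, c z ⬝ᵥ (s ∘ w) = -t * s (g ⬝ᵥ w) + z * s (Ad α β e ⬝ᵥ w) := by
      intro z w
      change ((-t) • (s ∘ g) + z • (s ∘ Ad α β e)) ⬝ᵥ (s ∘ w) = _
      rw [add_dotProduct, smul_dotProduct, smul_dotProduct, comp_dot, comp_dot, smul_eq_mul,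
        smul_eq_mul]
    have h1 : ∑ z : F, (univ.filter (fun i => Inc s (Ad α β d) (c z) (v i) (b i))).card ≤
        Fintype.card F * n := by
      refine (Finset.sum_le_sum fun z _ => hl (Ad α β d) (c z) (hA0 d)).trans ?_
      rw [Finset.sum_const, Finset.card_univ, smul_eq_mul]
    refine le_trans ?_ h1
    have h2 : ∑ z : F, (univ.filter (fun i => Inc s (Ad α β d) (c z) (v i) (b i))).card =
        ∑ i, (univ.filter (fun z => Inc s (Ad α β d) (c z) (v i) (b i))).card := by
      simp only [Finset.card_filter]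
      rw [Finset.sum_comm]
    rw [h2]
    have h3 : ∀ i, (if i ∈ C ∧ pF d (f i) = t then Fintype.card F else 0) +
        (if i ∉ C ∧ Ad α β d ⬝ᵥ v i = 0 then 1 else 0) ≤
        (univ.filter (fun z => Inc s (Ad α β d) (c z) (v i) (b i))).card := by
      intro i
      by_cases hi : i ∈ C
      · rw [if_neg (c := i ∉ C ∧ _) (fun h => h.1 hi), add_zero]
        by_cases ht : pF d (f i) = t
        · rw [if_pos ⟨hi, ht⟩]
          have h4 : univ.filter (fun z => Inc s (Ad α β d) (c z) (v i) (b i)) = univ := by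
            rw [Finset.filter_eq_self]
            intro z _
            have hs0 : s (lam i) ≠ 0 := by simpa using hlam0 i hi
            have hb : b i = s (lam i) • ((s (lam i))⁻¹ • b i) := by
              rw [smul_smul, mul_inv_cancel₀ hs0, one_smul]
            refine ⟨?_, ?_⟩
            · rw [hlam i hi, dotProduct_smul, hAv, smul_zero]
            · rw [hlam i hi, comp_smul, dotProduct_smul, hc, hg, hAv, map_one, map_zero, hb,
                dotProduct_smul, Ad_dot]
              change s (lam i) • pF d (f i) + _ = 0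
              rw [ht, smul_eq_mul, smul_eq_mul]
              ring
          rw [h4, Finset.card_univ]
        · rw [if_neg (fun h => ht h.2)]
          exact Nat.zero_le _
      · rw [if_neg (c := i ∈ C ∧ _) (fun h => hi h.1), zero_add]
        by_cases ha : Ad α β d ⬝ᵥ v i = 0
        · rw [if_pos ⟨hi, ha⟩, Nat.succ_le_iff, Finset.card_pos]
          have h5 : Ad α β e ⬝ᵥ v i ≠ 0 := by
            intro h6
            have h7 := card_dir (hout i hi)
            rw [Finset.card_eq_one] at h7
            obtain ⟨d0, hd0⟩ := h7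
            have h8 : d ∈ univ.filter (fun d : Option F => pF d (α ⬝ᵥ v i, β ⬝ᵥ v i) = 0) := by
              rw [mem_filter, ← Ad_dot]
              exact ⟨mem_univ _, ha⟩
            have h9 : e ∈ univ.filter (fun d : Option F => pF d (α ⬝ᵥ v i, β ⬝ᵥ v i) = 0) := by
              rw [mem_filter, ← Ad_dot]
              exact ⟨mem_univ _, h6⟩
            rw [hd0, mem_singleton] at h8 h9
            exact hed (h9.trans h8.symm)
          have h6 : s (Ad α β e ⬝ᵥ v i) ≠ 0 := by simpa using h5
          refine ⟨(t * s (g ⬝ᵥ v i) - Ad α β d ⬝ᵥ b i) / s (Ad α β e ⬝ᵥ v i), ?_⟩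
          rw [mem_filter]
          refine ⟨mem_univ _, ha, ?_⟩
          rw [hc, div_mul_cancel₀ _ h6]
          ring
        · rw [if_neg (fun h => ha h.2)]
          exact Nat.zero_le _
    refine le_trans (le_of_eq ?_) (Finset.sum_le_sum fun i _ => h3 i)
    rw [Finset.sum_add_distrib, Finset.card_filter (fun i => i ∉ C ∧ Ad α β d ⬝ᵥ v i = 0)]
    congr 1
    rw [← Finset.sum_filter, Finset.sum_const, smul_eq_mul, mul_comm]
    congr 2
    ext i
    simp [hC]
  -- the largest lines
  let m : Option F → ℕ := fun d => univ.sup (fun t => (K.filter (fun x => (apF F).p d x = t)).card)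
  have hm : ∀ d t, (K.filter (fun x => (apF F).p d x = t)).card ≤ m d := fun d t =>
    Finset.le_sup (f := fun t => (K.filter (fun x => (apF F).p d x = t)).card) (mem_univ t)
  have hm' : ∀ d, ∃ t, (K.filter (fun x => (apF F).p d x = t)).card = m d := by
    intro d
    obtain ⟨t, -, ht⟩ := Finset.exists_mem_eq_sup (univ : Finset F) ⟨0, mem_univ _⟩
      (fun t => (K.filter (fun x => (apF F).p d x = t)).card)
    exact ⟨t, ht.symm⟩
  have hi0 : i0 ∈ C := by
    rw [hC, mem_filter]
    exact ⟨mem_univ _, 1, (one_smul _ _).symm⟩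
  have hKne : K.Nonempty := ⟨f i0, mem_image_of_mem _ hi0⟩
  have hF : ∑ d : Option F, (univ.filter (fun i => i ∉ C ∧ Ad α β d ⬝ᵥ v i = 0)).card + u =
      Fintype.card ι := by
    have h1 : ∑ d : Option F, (univ.filter (fun i => i ∉ C ∧ Ad α β d ⬝ᵥ v i = 0)).card =
        (univ.filter (fun i => i ∉ C)).card := by
      simp only [Finset.card_filter]
      rw [Finset.sum_comm]
      refine Finset.sum_congr rfl fun i _ => ?_
      by_cases hi : i ∈ C
      · rw [if_neg (not_not.2 hi)]
        exact Finset.sum_eq_zero fun d _ => if_neg fun h => h.1 hi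
      · have h9 := card_dir (hout i hi)
        rw [Finset.card_filter] at h9
        rw [if_pos hi]
        refine (Finset.sum_congr rfl fun d _ => ?_).trans h9
        rw [Ad_dot]
        by_cases h2 : pF d (α ⬝ᵥ v i, β ⬝ᵥ v i) = 0
        · rw [if_pos ⟨hi, h2⟩, if_pos h2]
        · rw [if_neg (fun h => h2 h.2), if_neg h2]
    have h2 : univ.filter (fun i => i ∉ C) = Cᶜ := by
      ext i
      simp
    have h3 : C.card = u := hu
    rw [h1, h2, ← h3, Finset.card_compl_add_card]
  refine ⟨∑ d, m d, ?_, ?_, ?_⟩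
  · have h1 : ∑ d : Option F, (Fintype.card F * m d +
        (univ.filter (fun i => i ∉ C ∧ Ad α β d ⬝ᵥ v i = 0)).card) ≤
        ∑ _d : Option F, Fintype.card F * n := by
      refine Finset.sum_le_sum fun d _ => ?_
      obtain ⟨t, ht⟩ := hm' d
      rw [← ht, hseg]
      exact hresT d t
    rw [Finset.sum_add_distrib, ← Finset.mul_sum, Finset.sum_const, Finset.card_univ,
      Fintype.card_option, smul_eq_mul] at h1
    rw [← hF]
    linarith
  · rw [← hKc]
    exact (apF F).triv hKne m hm
  · intro h e hq hh he he2 hue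
    exact (apF F).lemma_A hq hh he he2 (by rw [hKc]; exact hue) m hm

end Pool.Agent.Lib.MP_4dc748_co.TC
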