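import Pool.Agent.Lib.MP_4dc748_co.TC.Half

/-!
# The dual maximal arc which contains the line at infinity
-/

set_option autoImplicit false

open scoped Classical

namespace Pool.Agent.Lib.MP_4dc748_co.TC

open Finset

variable {F : Type} [Field F] [Fintype F]

/-- The quadratic form N^2 + N + δ. -/
def Qd (δ : F) (M : Option F) : F :=
  match M with
  | none => 1
  | some N => N ^ 2 + N + δ

/-- The number of the line of the class M through the point (γ0, γ1). -/
def zM (γ0 γ1 : F) (M : Option F) : F :=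
  match M with
  | none => γ1
  | some N => γ0 + γ1 * N

/-- The line z of the class M is in the dual arc. -/
def InZ (τ : Tr F) (δ : F) (M : Option F) (z : F) : Prop :=
  z ≠ 0 ∧ τ.T (Qd δ M * z⁻¹ ^ 2) = 0

theorem exists_sqrt [CharP F 2] (a : F) : ∃ b : F, b ^ 2 = a := by
  obtain ⟨b, hb⟩ := FiniteField.isSquare_of_char_two (ringChar.eq F 2) a
  exact ⟨b, by rw [hb, sq]⟩

theorem Tr.mul_sq (τ : Tr F) (a b : F) : τ.T (a ^ 2 * b ^ 2) = τ.T (a * b) := by
  rw [← mul_pow, τ.sq]

theorem Qd_ne (τ : Tr F) {δ : F} (hδ : τ.T δ = 1) (M : Option F) : Qd δ M ≠ 0 := by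
  rcases M with _ | N
  · exact one_ne_zero
  · intro h
    have h1 : τ.T (N ^ 2 + N + δ) = 0 := by
      change N ^ 2 + N + δ = 0 at h
      rw [h, map_zero]
    rw [map_add, map_add, τ.sq, hδ, CharTwo.add_self_eq_zero, zero_add] at h1
    exact one_ne_zero h1

theorem card_InZ [CharP F 2] (τ : Tr F) {h : ℕ} (hq : Fintype.card F = 2 * h) {δ : F}
    (hδ : τ.T δ = 1) (M : Option F) :
    (univ.filter (fun z => InZ τ δ M z)).card + 1 = h := by
  obtain ⟨ρ, hρ⟩ := exists_sqrt (Qd δ M)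
  have hρ0 : ρ ≠ 0 := by
    rintro rfl
    exact Qd_ne τ hδ M (by rw [← hρ]; ring)
  have h1 : (univ.filter (fun z => InZ τ δ M z)).card =
      ((univ.filter (fun w : F => τ.T (ρ * w) = 0)).erase 0).card := by
    refine Finset.card_bij (fun z _ => z⁻¹) ?_ ?_ ?_
    · intro z hz
      rw [mem_filter] at hz
      rw [mem_erase, mem_filter]
      refine ⟨inv_ne_zero hz.2.1, mem_univ _, ?_⟩
      have h2 := hz.2.2
      rw [← hρ, τ.mul_sq] at h2
      exact h2
    · intro a _ b _ hab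
      exact inv_injective hab
    · intro w hw
      rw [mem_erase, mem_filter] at hw
      refine ⟨w⁻¹, ?_, inv_inv w⟩
      rw [mem_filter]
      refine ⟨mem_univ _, inv_ne_zero hw.1, ?_⟩
      rw [← hρ, inv_inv, τ.mul_sq]
      exact hw.2.2
  have h2 : (0 : F) ∈ univ.filter (fun w : F => τ.T (ρ * w) = 0) := by
    rw [mem_filter, mul_zero, map_zero]
    exact ⟨mem_univ _, rfl⟩
  rw [h1, Finset.card_erase_add_one h2, τ.half hq hρ0 0]

/-- Every point is on at most h lines of the dual arc. -/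
theorem cover_InZ [CharP F 2] (τ : Tr F) {h : ℕ} (hq : Fintype.card F = 2 * h) {δ : F}
    (hδ : τ.T δ = 1) (γ0 γ1 : F) :
    (univ.filter (fun M : Option F => InZ τ δ M (zM γ0 γ1 M))).card ≤ h := by
  by_cases hγ : γ1 = 0
  · -- the classes through the point have the same number
    have hz : ∀ M, InZ τ δ M (zM γ0 γ1 M) → ∃ N, M = some N ∧ γ0 ≠ 0 ∧
        τ.T ((γ0⁻¹ + γ0⁻¹ ^ 2) * N) = τ.T (δ * γ0⁻¹ ^ 2) := by
      intro M hM
      rcases M with _ | N
      · exact absurd hγ hM.1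
      · refine ⟨N, rfl, ?_, ?_⟩
        · intro h0
          apply hM.1
          change γ0 + γ1 * N = 0
          rw [h0, hγ, zero_mul, add_zero]
        · have h1 := hM.2
          change τ.T ((N ^ 2 + N + δ) * (γ0 + γ1 * N)⁻¹ ^ 2) = 0 at h1
          rw [hγ, zero_mul, add_zero, add_mul, add_mul, map_add, map_add, τ.mul_sq] at h1
          have h2 : τ.T ((γ0⁻¹ + γ0⁻¹ ^ 2) * N) = τ.T (N * γ0⁻¹) + τ.T (N * γ0⁻¹ ^ 2) := by
            rw [← map_add]
            congr 1
            ring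
          rw [h2]
          exact CharTwo.add_eq_zero.1 h1
    by_cases h0 : γ0 = 0
    · have h1 : (univ.filter (fun M : Option F => InZ τ δ M (zM γ0 γ1 M))) = ∅ := by
        rw [Finset.filter_eq_empty_iff]
        intro M _ hM
        obtain ⟨N, -, h2, -⟩ := hz M hM
        exact h2 h0
      rw [h1]
      exact Nat.zero_le _
    refine le_trans ?_ (τ.half_le hq (κ := γ0⁻¹ + γ0⁻¹ ^ 2) (ε := τ.T (δ * γ0⁻¹ ^ 2)) ?_)
    · refine Finset.card_le_card_of_injOn (fun M => M.getD 0) ?_ ?_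
      · intro M hM
        have hM' := (mem_filter.1 (mem_coe.1 hM)).2
        obtain ⟨N, rfl, -, h1⟩ := hz M hM'
        rw [mem_coe, mem_filter]
        exact ⟨mem_univ _, h1⟩
      · intro M hM M' hM' hMM
        obtain ⟨N, rfl, -, -⟩ := hz M (mem_filter.1 (mem_coe.1 hM)).2
        obtain ⟨N', rfl, -, -⟩ := hz M' (mem_filter.1 (mem_coe.1 hM')).2
        simp only [Option.getD_some] at hMM
        rw [hMM]
    · intro h1
      have h2 : γ0⁻¹ * (1 + γ0⁻¹) = 0 := by
        rw [← h1]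
        ring
      have h3 : 1 + γ0⁻¹ = 0 := (mul_eq_zero.1 h2).resolve_left (inv_ne_zero h0)
      have h4 : γ0⁻¹ = 1 := by
        have := CharTwo.add_eq_zero.1 h3
        exact this.symm
      rw [h4, one_pow, mul_one, hδ]
      exact one_ne_zero
  · set r : Option F → F := fun M =>
      match M with
      | none => 0
      | some N => (γ0 + γ1 * N)⁻¹ with hr
    obtain ⟨ρ, hρ⟩ := exists_sqrt (γ0 ^ 2 * γ1⁻¹ ^ 2 + γ0 * γ1⁻¹ + δ)
    refine le_trans ?_ (τ.half_le hq (κ := γ1⁻¹ + ρ) (ε := τ.T γ1⁻¹) ?_)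
    · refine Finset.card_le_card_of_injOn r ?_ ?_
      · intro M hM
        have hM' := (mem_filter.1 (mem_coe.1 hM)).2
        rw [mem_coe, mem_filter]
        refine ⟨mem_univ _, ?_⟩
        rcases M with _ | N
        · change τ.T ((γ1⁻¹ + ρ) * 0) = τ.T γ1⁻¹
          have h1 := hM'.2
          change τ.T (1 * γ1⁻¹ ^ 2) = 0 at h1
          rw [one_mul, τ.sq] at h1
          rw [mul_zero, map_zero, h1]
        · change τ.T ((γ1⁻¹ + ρ) * (γ0 + γ1 * N)⁻¹) = τ.T γ1⁻¹
          have h0 : γ0 + γ1 * N ≠ 0 := hM'.1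
          have h1 := hM'.2
          change τ.T ((N ^ 2 + N + δ) * (γ0 + γ1 * N)⁻¹ ^ 2) = 0 at h1
          set z := γ0 + γ1 * N with hzdef
          have hN : N = (z + γ0) * γ1⁻¹ := by
            rw [hzdef, add_right_comm, CharTwo.add_self_eq_zero, zero_add, mul_comm γ1,
              mul_assoc, mul_inv_cancel₀ hγ, mul_one]
          have h2 : (N ^ 2 + N + δ) * z⁻¹ ^ 2 =
              γ1⁻¹ ^ 2 + γ1⁻¹ * z⁻¹ + ρ ^ 2 * z⁻¹ ^ 2 := by
            have h3 : ((z + γ0) * γ1⁻¹) ^ 2 = z ^ 2 * γ1⁻¹ ^ 2 + γ0 ^ 2 * γ1⁻¹ ^ 2 := by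
              rw [mul_pow, CharTwo.add_sq]
              ring
            rw [hN, h3, hρ]
            field_simp
            ring
          rw [h2, map_add, map_add, τ.mul_sq, τ.sq] at h1
          rw [add_mul, map_add]
          have h4 : τ.T γ1⁻¹ + (τ.T (γ1⁻¹ * z⁻¹) + τ.T (ρ * z⁻¹)) = 0 := by
            rw [← add_assoc]
            exact h1
          exact (CharTwo.add_eq_zero.1 h4).symm
      · intro M hM M' hM' hMM
        have h1 := (mem_filter.1 (mem_coe.1 hM)).2
        have h2 := (mem_filter.1 (mem_coe.1 hM')).2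
        rcases M with _ | N <;> rcases M' with _ | N'
        · rfl
        · exact absurd hMM.symm (inv_ne_zero h2.1)
        · exact absurd hMM (inv_ne_zero h1.1)
        · have h3 : γ0 + γ1 * N = γ0 + γ1 * N' := inv_injective hMM
          rw [mul_left_cancel₀ hγ (add_left_cancel h3)]
    · intro h1
      have h2 : ρ = γ1⁻¹ := (CharTwo.add_eq_zero.1 h1).symm
      have h3 : τ.T (ρ ^ 2) = 1 := by
        rw [hρ, map_add, map_add, τ.mul_sq, hδ, CharTwo.add_self_eq_zero, zero_add]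
      rw [τ.sq, h2] at h3
      rw [h3]
      exact one_ne_zero

end Pool.Agent.Lib.MP_4dc748_co.TC
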